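import Mathlib

/-!
Finite Ramsey theorem for `d`-uniform hypergraphs and two colours.
-/

set_option autoImplicit false

namespace Pool.Agent.Helper91.SR

open Finset

/-- `RamseyProp d k l N`: every 2-colouring of the `d`-subsets of a set of size at least `N`
has a `true`-homogeneous subset of size `k` or a `false`-homogeneous subset of size `l`. -/
def RamseyProp (d k l N : ℕ) : Prop :=
  ∀ (α : Type) [DecidableEq α] (S : Finset α) (c : Finset α → Bool), N ≤ S.card →
    (∃ T ⊆ S, T.card = k ∧ ∀ e ⊆ T, e.card = d → c e = true) ∨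
    (∃ T ⊆ S, T.card = l ∧ ∀ e ⊆ T, e.card = d → c e = false)

theorem ramsey_zero (k l : ℕ) : RamseyProp 0 k l (max k l) := by
  intro α _ S c hS
  have h1 : k ≤ S.card := le_trans (le_max_left _ _) hS
  have h2 : l ≤ S.card := le_trans (le_max_right _ _) hS
  cases hc : c ∅ with
  | true =>
    left
    obtain ⟨T, hT, hTk⟩ := Finset.exists_subset_card_eq h1
    refine ⟨T, hT, hTk, ?_⟩
    intro e _ he
    rw [Finset.card_eq_zero] at he
    rw [he, hc]
  | false =>
    right
    obtain ⟨T, hT, hTk⟩ := Finset.exists_subset_card_eq h2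
    refine ⟨T, hT, hTk, ?_⟩
    intro e _ he
    rw [Finset.card_eq_zero] at he
    rw [he, hc]

theorem ramsey_swap {d k l N : ℕ} (h : RamseyProp d k l N) : RamseyProp d l k N := by
  intro α _ S c hS
  rcases h α S (fun e => !(c e)) hS with ⟨T, h1, h2, h3⟩ | ⟨T, h1, h2, h3⟩
  · right
    exact ⟨T, h1, h2, fun e he he' => by simpa using h3 e he he'⟩
  · left
    exact ⟨T, h1, h2, fun e he he' => by simpa using h3 e he he'⟩

theorem ramsey_step {d k l a b N : ℕ} (ha : RamseyProp (d+1) k (l+1) a)
    (hb : RamseyProp (d+1) (k+1) l b) (hN : RamseyProp d a b N) :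
    RamseyProp (d+1) (k+1) (l+1) (N+1) := by
  intro α _ S c hS
  obtain ⟨x, hx⟩ : S.Nonempty := by
    rw [← Finset.card_pos]; omega
  have hS' : N ≤ (S.erase x).card := by
    rw [Finset.card_erase_of_mem hx]; omega
  rcases hN α (S.erase x) (fun e => c (insert x e)) hS' with ⟨S', h1, h2, h3⟩ | ⟨S', h1, h2, h3⟩
  · have hxS' : x ∉ S' := fun h => by
      have := h1 h
      simp at this
    rcases ha α S' c (le_of_eq h2.symm) with ⟨T, t1, t2, t3⟩ | ⟨T, t1, t2, t3⟩
    · left
      have hxT : x ∉ T := fun h => hxS' (t1 h)
      refine ⟨insert x T, ?_, ?_, ?_⟩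
      · intro y hy
        rw [Finset.mem_insert] at hy
        rcases hy with rfl | hy
        · exact hx
        · exact Finset.mem_of_mem_erase (h1 (t1 hy))
      · rw [Finset.card_insert_of_notMem hxT, t2]
      · intro e he hed
        by_cases hxe : x ∈ e
        · have h4 : insert x (e.erase x) = e := Finset.insert_erase hxe
          rw [← h4]
          apply h3
          · intro y hy
            have hy1 := Finset.mem_of_mem_erase hy
            have hy2 := he hy1
            rw [Finset.mem_insert] at hy2
            rcases hy2 with hy2 | hy2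
            · exact absurd hy2 (Finset.ne_of_mem_erase hy)
            · exact t1 hy2
          · rw [Finset.card_erase_of_mem hxe, hed]; rfl
        · apply t3 e _ hed
          intro y hy
          have hy2 := he hy
          rw [Finset.mem_insert] at hy2
          rcases hy2 with hy2 | hy2
          · exact absurd (hy2 ▸ hy) hxe
          · exact hy2
    · right
      exact ⟨T, fun y hy => Finset.mem_of_mem_erase (h1 (t1 hy)), t2, t3⟩
  · have hxS' : x ∉ S' := fun h => by
      have := h1 h
      simp at this
    rcases hb α S' c (le_of_eq h2.symm) with ⟨T, t1, t2, t3⟩ | ⟨T, t1, t2, t3⟩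
    · left
      exact ⟨T, fun y hy => Finset.mem_of_mem_erase (h1 (t1 hy)), t2, t3⟩
    · right
      have hxT : x ∉ T := fun h => hxS' (t1 h)
      refine ⟨insert x T, ?_, ?_, ?_⟩
      · intro y hy
        rw [Finset.mem_insert] at hy
        rcases hy with rfl | hy
        · exact hx
        · exact Finset.mem_of_mem_erase (h1 (t1 hy))
      · rw [Finset.card_insert_of_notMem hxT, t2]
      · intro e he hed
        by_cases hxe : x ∈ e
        · have h4 : insert x (e.erase x) = e := Finset.insert_erase hxe
          rw [← h4]
          apply h3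
          · intro y hy
            have hy1 := Finset.mem_of_mem_erase hy
            have hy2 := he hy1
            rw [Finset.mem_insert] at hy2
            rcases hy2 with hy2 | hy2
            · exact absurd hy2 (Finset.ne_of_mem_erase hy)
            · exact t1 hy2
          · rw [Finset.card_erase_of_mem hxe, hed]; rfl
        · apply t3 e _ hed
          intro y hy
          have hy2 := he hy
          rw [Finset.mem_insert] at hy2
          rcases hy2 with hy2 | hy2
          · exact absurd (hy2 ▸ hy) hxe
          · exact hy2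

theorem ramsey_exists (d : ℕ) : ∀ k l : ℕ, ∃ N, RamseyProp d k l N := by
  induction d with
  | zero => intro k l; exact ⟨_, ramsey_zero k l⟩
  | succ d ih =>
    have base : ∀ l, RamseyProp (d+1) 0 l 0 := by
      intro l α _ S c _
      left
      refine ⟨∅, Finset.empty_subset _, Finset.card_empty, ?_⟩
      intro e he hed
      rw [Finset.subset_empty] at he
      rw [he, Finset.card_empty] at hed
      omega
    intro k
    induction k with
    | zero => intro l; exact ⟨0, base l⟩
    | succ k ihk =>
      intro l
      induction l with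
      | zero => exact ⟨0, ramsey_swap (base (k+1))⟩
      | succ l ihl =>
        obtain ⟨a, ha⟩ := ihk (l+1)
        obtain ⟨b, hb⟩ := ihl
        obtain ⟨N, hN⟩ := ih a b
        exact ⟨N+1, ramsey_step ha hb hN⟩

/-- Ramsey for colourings of `Finset (Fin J)`. -/
theorem ramsey_fin (d D : ℕ) : ∃ J : ℕ, ∀ c : Finset (Fin J) → Bool,
    ∃ (T : Finset (Fin J)) (b : Bool), T.card = D ∧ ∀ e ⊆ T, e.card = d → c e = b := by
  obtain ⟨J, hJ⟩ := ramsey_exists d D D
  refine ⟨J, fun c => ?_⟩
  rcases hJ (Fin J) Finset.univ c (by simp) with ⟨T, _, h2, h3⟩ | ⟨T, _, h2, h3⟩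
  · exact ⟨T, true, h2, h3⟩
  · exact ⟨T, false, h2, h3⟩

end Pool.Agent.Helper91.SR
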