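import Pool.Agent.Helper91.SR.Good

/-!
Dependent random choice with one pin per flat.
-/

set_option autoImplicit false
set_option linter.unusedSectionVars false
set_option linter.unusedVariables false

namespace Pool.Agent.Helper91.SR

open Finset

theorem card_pin {ι Z : Type*} [Fintype ι] [DecidableEq ι] [Fintype Z] [DecidableEq Z] (k₀ : ι)
    (R : Finset Z) [Nonempty Z] :
    ((Finset.univ.filter (fun ω : ι → Z => ω k₀ ∈ R)).card : ℝ) * (Fintype.card Z : ℝ)
      = (R.card : ℝ) * (Fintype.card (ι → Z) : ℝ) := by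
  classical
  have h1 : Finset.univ.filter (fun ω : ι → Z => ω k₀ ∈ R)
      = Fintype.piFinset (fun i => if i = k₀ then R else Finset.univ) := by
    ext ω
    rw [Finset.mem_filter, Fintype.mem_piFinset]
    simp only [Finset.mem_univ, true_and]
    constructor
    · intro h i
      by_cases hi : i = k₀
      · subst hi; simpa using h
      · simp [hi]
    · intro h
      simpa using h k₀
  rw [h1, Fintype.card_piFinset, Fintype.card_fun]
  have h2 : ∀ i : ι, (if i = k₀ then R else (Finset.univ : Finset Z)).card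
      = if i = k₀ then R.card else Fintype.card Z := by
    intro i; split_ifs <;> simp
  rw [Finset.prod_congr rfl (fun i _ => h2 i)]
  have h3 : (∏ i : ι, if i = k₀ then R.card else Fintype.card Z) * Fintype.card Z
      = R.card * Fintype.card Z ^ Fintype.card ι := by
    rw [← Finset.mul_prod_erase Finset.univ _ (Finset.mem_univ k₀), if_pos rfl]
    have h4 : ∏ i ∈ Finset.univ.erase k₀, (if i = k₀ then R.card else Fintype.card Z)
        = Fintype.card Z ^ (Fintype.card ι - 1) := by
      rw [Finset.prod_congr rfl (g := fun _ => Fintype.card Z)]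
      · rw [Finset.prod_const, Finset.card_erase_of_mem (Finset.mem_univ _), Finset.card_univ]
      · intro i hi
        rw [if_neg (Finset.ne_of_mem_erase hi)]
    rw [h4, mul_assoc, ← pow_succ]
    have : 0 < Fintype.card ι := Fintype.card_pos_iff.2 ⟨k₀⟩
    congr 2
    omega
  exact_mod_cast h3

section drc

variable {κ Φ Z : Type*} [Fintype κ] [DecidableEq κ] [Fintype Φ] [DecidableEq Φ] [Fintype Z]
  [DecidableEq Z] {A : Type*} [Fintype A] [DecidableEq A] {D : ℕ}
  (φ : κ → (Fin D → A) → Φ) (r : κ → (Fin D → A) → Z → Prop) (X₀ : Finset (Fin D → A))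

open Classical in
/-- Final goodness: many common neighbours in every flat containing `T`. -/
def FG (β : ℝ) (T : Finset (Fin D → A)) : Prop :=
  ∀ K : κ, (∀ x ∈ T, ∀ y ∈ T, φ K x = φ K y) →
    β * (Fintype.card Z : ℝ) ≤ ((Finset.univ.filter (fun z : Z => ∀ x ∈ T, r K x z)).card : ℝ)

open Classical in
/-- The random set. -/
noncomputable def Xr (ω : κ × Φ → Z) : Finset (Fin D → A) :=
  X₀.filter (fun x => ∀ K, r K x (ω (K, φ K x)))

theorem drc_one [Nonempty Z] (β : ℝ) (hβ : 0 ≤ β) (T : Finset (Fin D → A)) (hT : T.Nonempty) :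
    Pr (fun (ω : κ × Φ → Z) (_ : Fin D → A) => T ⊆ Xr φ r X₀ ω ∧ ¬ FG φ r β T)
      ≤ β * ((Fintype.card (κ × Φ → Z) : ℝ) * (Fintype.card A : ℝ) ^ D) := by
  classical
  by_cases hFG : FG φ r β T
  · unfold Pr
    rw [Finset.sum_eq_zero]
    · positivity
    · intro ω _
      apply Finset.sum_eq_zero
      intro b _
      exact ind_of_not (fun h => h.2 hFG)
  · have hFG' := hFG
    unfold FG at hFG'
    push Not at hFG'
    obtain ⟨K, hK1, hK2⟩ := hFG'
    obtain ⟨x₀, hx₀⟩ := hT
    set R : Finset Z := Finset.univ.filter (fun z : Z => ∀ x ∈ T, r K x z) with hR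
    have h1 : ∀ (ω : κ × Φ → Z) (b : Fin D → A), ind (T ⊆ Xr φ r X₀ ω ∧ ¬ FG φ r β T)
        ≤ ind (ω (K, φ K x₀) ∈ R) := by
      intro ω b
      apply ind_mono
      rintro ⟨h, _⟩
      rw [hR, Finset.mem_filter]
      refine ⟨Finset.mem_univ _, fun x hx => ?_⟩
      have h2 := h hx
      unfold Xr at h2
      have h3 := (Finset.mem_filter.1 h2).2 K
      rw [hK1 x hx x₀ hx₀] at h3
      exact h3
    have h2 : Pr (fun (ω : κ × Φ → Z) (_ : Fin D → A) => T ⊆ Xr φ r X₀ ω ∧ ¬ FG φ r β T)
        ≤ ((Finset.univ.filter (fun ω : κ × Φ → Z => ω (K, φ K x₀) ∈ R)).card : ℝ)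
          * (Fintype.card A : ℝ) ^ D := by
      unfold Pr
      calc _ ≤ ∑ ω : κ × Φ → Z, ∑ b : Fin D → A, ind (ω (K, φ K x₀) ∈ R) :=
            Finset.sum_le_sum (fun ω _ => Finset.sum_le_sum (fun b _ => h1 ω b))
        _ = ∑ ω : κ × Φ → Z, (Fintype.card A : ℝ) ^ D * ind (ω (K, φ K x₀) ∈ R) := by
            apply Finset.sum_congr rfl
            intro ω _
            rw [Finset.sum_const, nsmul_eq_mul, Finset.card_univ, Fintype.card_fun, Fintype.card_fin]
            push_cast
            rfl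
        _ = _ := by
            rw [← Finset.mul_sum, sum_ind]
            ring
    have hZ : (0 : ℝ) < (Fintype.card Z : ℝ) := by exact_mod_cast Fintype.card_pos
    have h3 := card_pin (ι := κ × Φ) (K, φ K x₀) R
    have h4 : ((Finset.univ.filter (fun ω : κ × Φ → Z => ω (K, φ K x₀) ∈ R)).card : ℝ)
        ≤ β * (Fintype.card (κ × Φ → Z) : ℝ) := by
      have h5 : ((Finset.univ.filter (fun ω : κ × Φ → Z => ω (K, φ K x₀) ∈ R)).card : ℝ)
          * (Fintype.card Z : ℝ) ≤ (β * (Fintype.card (κ × Φ → Z) : ℝ)) * (Fintype.card Z : ℝ) := by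
        rw [h3]
        calc (R.card : ℝ) * (Fintype.card (κ × Φ → Z) : ℝ)
            ≤ (β * (Fintype.card Z : ℝ)) * (Fintype.card (κ × Φ → Z) : ℝ) :=
              mul_le_mul_of_nonneg_right hK2.le (Nat.cast_nonneg _)
          _ = _ := by ring
      exact le_of_mul_le_mul_right h5 hZ
    calc _ ≤ _ := h2
      _ ≤ (β * (Fintype.card (κ × Φ → Z) : ℝ)) * (Fintype.card A : ℝ) ^ D :=
          mul_le_mul_of_nonneg_right h4 (by positivity)
      _ = _ := by ring

theorem drc_two (hX₀ : ∀ x ∈ X₀, ∀ K, ∀ S : Finset Z, (∀ z, z ∈ S ↔ r K x z) →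
      Fintype.card Z ≤ 2 * S.card) :
    (X₀.card : ℝ) * (Fintype.card (κ × Φ → Z) : ℝ) ≤
      2 ^ (Fintype.card κ) * ∑ ω : κ × Φ → Z, ((Xr φ r X₀ ω).card : ℝ) := by
  classical
  have h1 : ∑ ω : κ × Φ → Z, ((Xr φ r X₀ ω).card : ℝ)
      = ∑ x ∈ X₀, ((Finset.univ.filter (fun ω : κ × Φ → Z => ∀ K, r K x (ω (K, φ K x)))).card : ℝ) := by
    have e1 : ∀ ω : κ × Φ → Z, ((Xr φ r X₀ ω).card : ℝ) = ∑ x ∈ X₀, ind (∀ K, r K x (ω (K, φ K x))) := by
      intro ω
      unfold Xr
      rw [Finset.card_filter]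
      push_cast
      apply Finset.sum_congr rfl
      intro x _
      by_cases h : ∀ K, r K x (ω (K, φ K x))
      · rw [if_pos h, ind_of h]
      · rw [if_neg h, ind_of_not h]
    rw [Finset.sum_congr rfl (fun ω _ => e1 ω), Finset.sum_comm]
    apply Finset.sum_congr rfl
    intro x _
    rw [sum_ind]
  rw [h1, Finset.mul_sum]
  rw [← nsmul_eq_mul, ← Finset.sum_const]
  apply Finset.sum_le_sum
  intro x hx
  let R : κ → Finset Z := fun K => Finset.univ.filter (fun z => r K x z)
  have hR : ∀ K, Fintype.card Z ≤ 2 * (R K).card := fun K =>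
    hX₀ x hx K (R K) (fun z => by simp [R])
  have h2 : Finset.univ.filter (fun ω : κ × Φ → Z => ∀ K, r K x (ω (K, φ K x)))
      = Fintype.piFinset (fun p : κ × Φ => if p.2 = φ p.1 x then R p.1 else Finset.univ) := by
    ext ω
    rw [Finset.mem_filter, Fintype.mem_piFinset]
    simp only [Finset.mem_univ, true_and]
    constructor
    · rintro h ⟨K, S⟩
      by_cases hS : S = φ K x
      · subst hS
        simpa [R] using h K
      · simp [hS]
    · intro h K
      have := h (K, φ K x)
      simpa [R] using this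
  rw [h2, Fintype.card_piFinset, Fintype.card_fun]
  have h3 : (2 : ℕ) ^ Fintype.card κ = ∏ p : κ × Φ, if p.2 = φ p.1 x then 2 else 1 := by
    rw [Fintype.prod_prod_type]
    simp
  have h4 : Fintype.card Z ^ Fintype.card (κ × Φ) ≤ 2 ^ Fintype.card κ *
      ∏ p : κ × Φ, (if p.2 = φ p.1 x then R p.1 else (Finset.univ : Finset Z)).card := by
    rw [h3, ← Finset.prod_mul_distrib]
    calc Fintype.card Z ^ Fintype.card (κ × Φ) = ∏ p : κ × Φ, Fintype.card Z := by
          rw [Finset.prod_const, Finset.card_univ]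
      _ ≤ _ := by
          apply Finset.prod_le_prod'
          intro p _
          by_cases hp : p.2 = φ p.1 x
          · simpa [hp] using hR p.1
          · simp [hp]
  exact_mod_cast h4

end drc

end Pool.Agent.Helper91.SR
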