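import Pool.Agent.Helper91.SR.Step
import Pool.Agent.Helper91.SR.DRC

/-!
The abstract embedding theorem.
-/

set_option autoImplicit false
set_option linter.unusedSectionVars false
set_option linter.unusedVariables false

namespace Pool.Agent.Helper91.SR

open Finset

/-- The sequence of constants. -/
noncomputable def gam (s : ℕ) (θ γ₀ : ℝ) : ℕ → ℝ
  | 0 => γ₀
  | k+1 => gam s θ γ₀ k * θ * (gam s θ γ₀ k / 2) ^ (2 * s) / (2 * s)

theorem gam_pos {s : ℕ} (hs : 1 ≤ s) {θ γ₀ : ℝ} (hθ : 0 < θ) (hγ : 0 < γ₀) : ∀ k, 0 < gam s θ γ₀ k := by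
  intro k
  induction k with
  | zero => exact hγ
  | succ k ih =>
    have : (0 : ℝ) < s := by exact_mod_cast hs
    simp only [gam]
    positivity

theorem gam_le {s : ℕ} (hs : 1 ≤ s) {θ γ₀ : ℝ} (hθ : 0 < θ) (hθ1 : θ ≤ 1) (hγ : 0 < γ₀) (hγ1 : γ₀ ≤ 1) :
    ∀ k, gam s θ γ₀ (k+1) ≤ gam s θ γ₀ k ∧ gam s θ γ₀ k ≤ 1 := by
  intro k
  have hs' : (1 : ℝ) ≤ s := by exact_mod_cast hs
  have key : ∀ k, gam s θ γ₀ k ≤ 1 → gam s θ γ₀ (k+1) ≤ gam s θ γ₀ k := by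
    intro k hk
    have h0 := gam_pos hs hθ hγ k
    simp only [gam]
    rw [div_le_iff₀ (by linarith)]
    have h1 : (gam s θ γ₀ k / 2) ^ (2 * s) ≤ 1 := pow_le_one₀ (by linarith) (by linarith)
    have h2 : gam s θ γ₀ k * θ ≤ gam s θ γ₀ k := by nlinarith
    have h3 : 0 ≤ (gam s θ γ₀ k / 2) ^ (2 * s) := by positivity
    calc gam s θ γ₀ k * θ * (gam s θ γ₀ k / 2) ^ (2 * s) ≤ gam s θ γ₀ k * θ * 1 := by
          apply mul_le_mul_of_nonneg_left h1; positivity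
      _ ≤ gam s θ γ₀ k := by linarith
      _ ≤ gam s θ γ₀ k * (2 * s) := by nlinarith
  have h1 : ∀ k, gam s θ γ₀ k ≤ 1 := by
    intro k
    induction k with
    | zero => exact hγ1
    | succ k ih => exact (key k ih).trans ih
  exact ⟨key k (h1 k), h1 k⟩

theorem gam_anti {s : ℕ} (hs : 1 ≤ s) {θ γ₀ : ℝ} (hθ : 0 < θ) (hθ1 : θ ≤ 1) (hγ : 0 < γ₀) (hγ1 : γ₀ ≤ 1)
    {k l : ℕ} (h : k ≤ l) : gam s θ γ₀ l ≤ gam s θ γ₀ k :=
  antitone_nat_of_succ_le (fun k => (gam_le hs hθ hθ1 hγ hγ1 k).1) h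

/-- The value of `θ` used. -/
noncomputable def thet (d : ℕ) : ℝ := 1 / (2 * (4 * ((8 ^ d : ℕ) : ℝ)) ^ (2 ^ d))

theorem thet_pos (d : ℕ) : 0 < thet d := by unfold thet; positivity

theorem thet_le_one (d : ℕ) : thet d ≤ 1 := by
  unfold thet
  rw [div_le_one (by positivity)]
  have h1 : (1 : ℝ) ≤ 4 * ((8 ^ d : ℕ) : ℝ) := by
    have : (1 : ℝ) ≤ ((8 ^ d : ℕ) : ℝ) := by exact_mod_cast Nat.one_le_pow _ _ (by norm_num)
    linarith
  have h2 : (1 : ℝ) ≤ (4 * ((8 ^ d : ℕ) : ℝ)) ^ (2 ^ d) := one_le_pow₀ h1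
  linarith

theorem thet_mul (d : ℕ) : thet d * (4 * ((8 ^ d : ℕ) : ℝ)) ^ (2 ^ d) < 1 := by
  unfold thet
  have h : (0 : ℝ) < (4 * ((8 ^ d : ℕ) : ℝ)) ^ (2 ^ d) := by positivity
  rw [div_mul_eq_mul_div, one_mul, div_lt_one (by positivity)]
  linarith

/-- The abstract embedding theorem. -/
theorem abstract_main (d D k : ℕ) (δ : ℝ) (hδ : 0 < δ) :
    ∃ c : ℝ, 0 < c ∧ ∀ (A κ Φ Z : Type) [Fintype A] [DecidableEq A] [Fintype κ] [DecidableEq κ]
      [Fintype Φ] [DecidableEq Φ] [Fintype Z] [DecidableEq Z] [Nonempty A] [Nonempty Z]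
      (φ : κ → (Fin D → A) → Φ) (r : κ → (Fin D → A) → Z → Prop) (X₀ : Finset (Fin D → A)),
      Fintype.card κ ≤ k →
      δ * (Fintype.card A : ℝ) ^ D ≤ (X₀.card : ℝ) →
      (∀ x ∈ X₀, ∀ K, ∀ S : Finset Z, (∀ z, z ∈ S ↔ r K x z) → Fintype.card Z ≤ 2 * S.card) →
      ∀ M : ℕ, 1 ≤ M → (4 : ℝ) * (2 * M + 1) ^ d ≤ c * (Fintype.card A : ℝ) →
      ∃ F : (Fin d → ℕ) → (Fin D → A),
        (∀ u v : Fin d → ℕ, (∀ i, u i < (M+1) ^ D) → (∀ i, v i < (M+1) ^ D) → F u = F v → u = v) ∧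
        (∀ a S, InBox ((M+1) ^ D) a S → FG φ r c ((face a S).image F)) ∧
        (∀ a S, InBox ((M+1) ^ D) a S → ∃ Y : Finset (Fin D), Y.card ≤ S.card ∧
          ∀ x ∈ face a S, ∀ y ∈ face a S, ∀ i, i ∉ Y → F x i = F y i) := by
  classical
  set s : ℕ := 2 ^ d with hs
  have hs1 : 1 ≤ s := Nat.one_le_pow _ _ (by norm_num)
  set θ := thet d with hθ
  set γ₀ : ℝ := min (δ / 2 ^ k / 2) 1 with hγ₀
  have hγ : 0 < γ₀ := lt_min (by positivity) one_pos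
  have hγ1 : γ₀ ≤ 1 := min_le_right _ _
  have hγδ : γ₀ ≤ δ / 2 ^ k / 2 := min_le_left _ _
  have hθp := thet_pos d
  have hθ1 := thet_le_one d
  refine ⟨gam s θ γ₀ D / 2, by have := gam_pos hs1 hθp hγ D; linarith, ?_⟩
  intro A κ Φ Z _ _ _ _ _ _ _ _ _ _ φ r X₀ hκ hX₀ hmaj M hM hconf
  have hgD := gam_pos hs1 hθp hγ D
  set q : ℝ := (Fintype.card A : ℝ) with hq
  have hqp : 0 < q := by rw [hq]; exact_mod_cast Fintype.card_pos
  let g : ℕ → ℝ := fun t => gam s θ γ₀ (D - t)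
  let β : ℕ → ℝ := fun t => g (t+1) / 2
  let η : ℕ → ℝ := fun t => θ * β t ^ s
  have hg : ∀ t, 0 < g t := fun t => gam_pos hs1 hθp hγ _
  have hg1 : ∀ t, g t ≤ 1 := fun t => (gam_le hs1 hθp hθ1 hγ hγ1 _).2
  have hβ : ∀ t, 0 < β t := fun t => by have := hg (t+1); simp only [β]; linarith
  have hβ1 : ∀ t, β t ≤ 1 := fun t => by have := hg1 (t+1); simp only [β]; linarith
  have hη : ∀ t, 0 < η t := fun t => by
    have := hβ t
    simp only [η]; positivity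
  have hrec : ∀ t, t < D → β t + s * (g t / (η t * β t ^ s)) ≤ g (t+1) := by
    intro t ht
    have h1 : g t = g (t+1) * θ * (g (t+1) / 2) ^ (2 * s) / (2 * s) := by
      simp only [g]
      have : D - t = (D - (t+1)) + 1 := by omega
      rw [this, gam]
    have hb := hβ t
    have hsr : (0 : ℝ) < s := by exact_mod_cast hs1
    have h2 : (s : ℝ) * (g t / (η t * β t ^ s)) = g (t+1) / 2 := by
      rw [h1]
      have h3 : g (t+1) / 2 = β t := rfl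
      have h4 : η t * β t ^ s = θ * β t ^ (2 * s) := by
        simp only [η]; ring
      rw [h4, h3]
      have h5 : β t ^ (2 * s) ≠ 0 := by positivity
      have h6 : θ ≠ 0 := hθp.ne'
      field_simp
      simp only [β]
      ring
    rw [h2]
    simp only [β]
    linarith
  let X : (κ × Φ → Z) → Finset (Fin D → A) := Xr φ r X₀
  have hΩp : (0 : ℝ) < (Fintype.card (κ × Φ → Z) : ℝ) := by exact_mod_cast Fintype.card_pos
  have hX : g D * ((Fintype.card (κ × Φ → Z) : ℝ) * q ^ D) < ∑ ω, ((X ω).card : ℝ) := by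
    have h1 := drc_two φ r X₀ hmaj
    have h2 : (2 : ℝ) ^ Fintype.card κ ≤ 2 ^ k := pow_le_pow_right₀ (by norm_num) hκ
    have h3 : (0 : ℝ) ≤ ∑ ω, ((X ω).card : ℝ) := Finset.sum_nonneg (fun _ _ => Nat.cast_nonneg _)
    have h4 : δ * q ^ D * (Fintype.card (κ × Φ → Z) : ℝ) ≤ 2 ^ k * ∑ ω, ((X ω).card : ℝ) := by
      calc _ ≤ (X₀.card : ℝ) * (Fintype.card (κ × Φ → Z) : ℝ) :=
            mul_le_mul_of_nonneg_right hX₀ hΩp.le
        _ ≤ _ := h1
        _ ≤ _ := mul_le_mul_of_nonneg_right h2 h3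
    have h5 : g D = γ₀ := by simp [g, gam]
    rw [h5]
    have hk : (0 : ℝ) < 2 ^ k := by positivity
    have h6 : γ₀ * 2 ^ k ≤ δ / 2 := by
      calc γ₀ * 2 ^ k ≤ (δ / 2 ^ k / 2) * 2 ^ k := mul_le_mul_of_nonneg_right hγδ hk.le
        _ = δ / 2 := by field_simp
    have h7 : (0 : ℝ) < (Fintype.card (κ × Φ → Z) : ℝ) * q ^ D := by positivity
    have h8 : (γ₀ * ((Fintype.card (κ × Φ → Z) : ℝ) * q ^ D)) * 2 ^ k
        < (∑ ω, ((X ω).card : ℝ)) * 2 ^ k := by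
      calc (γ₀ * ((Fintype.card (κ × Φ → Z) : ℝ) * q ^ D)) * 2 ^ k
          = (γ₀ * 2 ^ k) * ((Fintype.card (κ × Φ → Z) : ℝ) * q ^ D) := by ring
        _ ≤ (δ / 2) * ((Fintype.card (κ × Φ → Z) : ℝ) * q ^ D) :=
            mul_le_mul_of_nonneg_right h6 h7.le
        _ < δ * ((Fintype.card (κ × Φ → Z) : ℝ) * q ^ D) := by nlinarith
        _ = δ * q ^ D * (Fintype.card (κ × Φ → Z) : ℝ) := by ring
        _ ≤ 2 ^ k * ∑ ω, ((X ω).card : ℝ) := h4
        _ = _ := by ring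
    exact lt_of_mul_lt_mul_right h8 hk.le
  obtain ⟨ω, b, hb, hgood⟩ := exists_anchor (Ω := κ × Φ → Z) X (FG φ r (gam s θ γ₀ D)) s β η g
    (fun t _ => hβ t) (fun t _ => hβ1 t) (fun t _ => hη t) (fun t _ => (hg t).le) hrec
    (fun T hT => by
      have h1 := drc_one (Z := Z) φ r X₀ (gam s θ γ₀ D) hgD.le T hT
      exact h1) hX
  have hstage : ∀ j, j ≤ D → ∃ F : (Fin d → ℕ) → (Fin D → A),
      Stage (X ω) (FG φ r (gam s θ γ₀ D)) (2 ^ d) β η b ((M+1) ^ j) (D - j) F := by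
    intro j
    induction j with
    | zero =>
      intro _
      exact ⟨fun _ => b, stage_zero _ _ _ _ _ _ hgood⟩
    | succ j ih =>
      intro hj
      obtain ⟨F, hF⟩ := ih (by omega)
      have ht : D - (j+1) < D := by omega
      have h1 : D - j = (D - (j+1)) + 1 := by omega
      rw [h1] at hF
      have h2 : gam s θ γ₀ D / 2 ≤ β (D - (j+1)) := by
        simp only [β, g]
        have := gam_anti hs1 hθp hθ1 hγ hγ1 (show D - (D - (j+1) + 1) ≤ D by omega)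
        linarith
      have hst := stage_step (X ω) (FG φ r (gam s θ γ₀ D)) β η b ((M+1)^j) (D - (j+1)) M hM
        (Nat.one_le_pow _ _ (by omega)) ht θ hθp.le (thet_mul d) (hβ _) (hβ1 _) (le_refl _) (hη _).le
        (hconf.trans (mul_le_mul_of_nonneg_right h2 hqp.le)) F hF
      rw [pow_succ]
      exact hst
  obtain ⟨F, hF⟩ := hstage D le_rfl
  rw [Nat.sub_self] at hF
  refine ⟨F, hF.inj, ?_, hF.dim⟩
  intro a S hbox
  have h1 := hF.gd a S hbox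
  rw [good] at h1
  intro K hK
  refine le_trans ?_ (h1 K hK)
  apply mul_le_mul_of_nonneg_right _ (Nat.cast_nonneg _)
  linarith

end Pool.Agent.Helper91.SR
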