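import Mathlib

/-!
Arithmetic of the map `u ↦ u - u / (M+1)`.
-/

set_option autoImplicit false
set_option linter.unusedSectionVars false
set_option linter.unusedVariables false

namespace Pool.Agent.Helper91.SR

/-- `cp M u = u - u / (M+1)`. -/
def cp (M u : ℕ) : ℕ := u - u / (M+1)

theorem decomp (M u : ℕ) : u = (M+1) * (u / (M+1)) + u % (M+1) := (Nat.div_add_mod u (M+1)).symm

theorem cp_eq (M u : ℕ) : cp M u = M * (u / (M+1)) + u % (M+1) := by
  unfold cp
  have h := decomp M u
  have h2 : (M+1) * (u / (M+1)) = M * (u / (M+1)) + u / (M+1) := by ring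
  omega

theorem mod_le (M u : ℕ) : u % (M+1) ≤ M := by
  have := Nat.mod_lt u (show 0 < M+1 by omega)
  omega

theorem cp_le (M n u : ℕ) (hu : u < n * (M+1)) : cp M u ≤ n * M := by
  rw [cp_eq]
  have h1 : u / (M+1) < n := Nat.div_lt_of_lt_mul (by rwa [mul_comm] at hu)
  have h2 := mod_le M u
  have h3 : M * (u / (M+1)) + M ≤ n * M := by
    calc M * (u / (M+1)) + M = M * (u / (M+1) + 1) := by ring
      _ ≤ M * n := Nat.mul_le_mul_left _ h1
      _ = n * M := by ring
  omega

theorem succ_div_of_eq {M u : ℕ} (h : u % (M+1) = M) : (u+1) / (M+1) = u / (M+1) + 1 := by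
  have h1 := decomp M u
  have h2 : u + 1 = (M+1) * (u / (M+1) + 1) := by
    rw [mul_add, mul_one]; omega
  calc (u+1) / (M+1) = ((M+1) * (u / (M+1) + 1)) / (M+1) := by rw [← h2]
    _ = _ := Nat.mul_div_cancel_left _ (by omega)

theorem succ_div_of_ne {M u : ℕ} (h : u % (M+1) ≠ M) : (u+1) / (M+1) = u / (M+1) := by
  have h1 := decomp M u
  have h3 := mod_le M u
  rw [Nat.div_eq_iff (by omega)]
  constructor
  · rw [mul_comm]; omega
  · have : u / (M+1) * (M+1) = (M+1) * (u / (M+1)) := mul_comm _ _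
    omega

theorem cp_succ_of_eq {M u : ℕ} (h : u % (M+1) = M) : cp M (u+1) = cp M u := by
  unfold cp
  rw [succ_div_of_eq h]
  have := Nat.div_le_self u (M+1)
  omega

theorem cp_succ_of_ne {M u : ℕ} (h : u % (M+1) ≠ M) : cp M (u+1) = cp M u + 1 := by
  unfold cp
  rw [succ_div_of_ne h]
  have := Nat.div_le_self u (M+1)
  omega

theorem cp_inj {M u v : ℕ} (h : u / (M+1) = v / (M+1)) (h2 : cp M u = cp M v) : u = v := by
  unfold cp at h2
  have := Nat.div_le_self u (M+1)
  have := Nat.div_le_self v (M+1)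
  omega

theorem cp_close {M u v : ℕ} (h : u / (M+1) = v / (M+1)) : cp M u ≤ cp M v + M := by
  rw [cp_eq, cp_eq, h]
  have := mod_le M u
  omega

theorem div_lt_box {M n u : ℕ} (h : u < n * (M+1)) : u / (M+1) < n :=
  Nat.div_lt_of_lt_mul (by rwa [mul_comm] at h)

/-- crossing positions. -/
def Cross (M n w : ℕ) : Prop := M ∣ w ∧ 0 < w ∧ w < n * M

instance (M n w : ℕ) : Decidable (Cross M n w) := by unfold Cross; infer_instance

/-- coarse low corner. -/
def lo (M w : ℕ) : ℕ := (w - 1) / M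

theorem lo_eq {M τ ρ : ℕ} (h1 : 1 ≤ ρ) (h2 : ρ ≤ M) : lo M (M * τ + ρ) = τ := by
  unfold lo
  have : M * τ + ρ - 1 = M * τ + (ρ - 1) := by omega
  rw [this, Nat.mul_add_div (by omega), Nat.div_eq_of_lt (by omega)]
  omega

theorem lo_zero (M : ℕ) : lo M 0 = 0 := by simp [lo]

theorem lo_lt {M n w : ℕ} (hM : 1 ≤ M) (hn : 1 ≤ n) (hw : w ≤ n * M) : lo M w < n := by
  unfold lo
  rw [Nat.div_lt_iff_lt_mul (by omega)]
  rcases Nat.eq_zero_or_pos w with h | h
  · subst h
    have : 0 < n * M := Nat.mul_pos (by omega) (by omega)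
    omega
  · omega

theorem lo_cross {M n w : ℕ} (hM : 1 ≤ M) (h : Cross M n w) : lo M w + 1 < n ∧ w = M * (lo M w + 1) := by
  obtain ⟨⟨c, rfl⟩, h2, h3⟩ := h
  have hc : 1 ≤ c := by
    rcases Nat.eq_zero_or_pos c with h | h
    · subst h; simp at h2
    · exact h
  have h4 : lo M (M * c) = c - 1 := by
    have : M * c = M * (c - 1) + M := by
      obtain ⟨c', rfl⟩ : ∃ c', c = c' + 1 := ⟨c - 1, by omega⟩
      simp; ring
    rw [this]
    exact lo_eq hM le_rfl
  have h5 : c < n := by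
    rw [mul_comm n M] at h3
    exact Nat.lt_of_mul_lt_mul_left h3
  rw [h4]
  constructor
  · omega
  · congr 1; omega

/-- containment for a coarse-crossing direction. -/
theorem contain_cross {M n u : ℕ} (hM : 1 ≤ M) (hu : u + 1 < n * (M+1)) (h : u % (M+1) = M) :
    Cross M n (cp M u) ∧ lo M (cp M u) = u / (M+1) := by
  have h1 : cp M u = M * (u / (M+1)) + M := by rw [cp_eq, h]
  have h2 : (u+1)/(M+1) < n := div_lt_box hu
  rw [succ_div_of_eq h] at h2
  constructor
  · refine ⟨?_, ?_, ?_⟩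
    · rw [h1]; exact ⟨u / (M+1) + 1, by ring⟩
    · rw [h1]; omega
    · rw [h1]
      calc M * (u / (M+1)) + M = (u / (M+1) + 1) * M := by ring
        _ < n * M := Nat.mul_lt_mul_of_pos_right h2 (by omega)
  · rw [h1]
    exact lo_eq hM le_rfl

/-- containment for another direction. -/
theorem contain_other {M n τ ρ : ℕ} (hM : 1 ≤ M) (hτ : τ < n) (hρ : ρ ≤ M) :
    τ = lo M (M * τ + ρ) ∨ (Cross M n (M * τ + ρ) ∧ τ = lo M (M * τ + ρ) + 1) := by
  rcases Nat.eq_zero_or_pos ρ with h | h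
  · subst h
    rcases Nat.eq_zero_or_pos τ with h0 | h0
    · subst h0
      left
      simp [lo_zero]
    · right
      have hc : Cross M n (M * τ + 0) := by
        refine ⟨⟨τ, by ring⟩, ?_, ?_⟩
        · have : 0 < M * τ := Nat.mul_pos (by omega) h0
          omega
        · rw [add_zero, mul_comm n M]
          exact Nat.mul_lt_mul_of_pos_left hτ (by omega)
      refine ⟨hc, ?_⟩
      have h3 := (lo_cross hM hc).2
      rw [add_zero] at h3 ⊢
      exact Nat.eq_of_mul_eq_mul_left (by omega) h3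
  · left
    exact (lo_eq h hρ).symm

theorem cp_fiber {M u w : ℕ} (hM : 1 ≤ M) (h : cp M u = w) :
    u = w + w / M ∨ u = w + w / M - 1 := by
  have h1 := decomp M u
  have h2 := cp_eq M u
  rw [h] at h2
  have h3 := mod_le M u
  have h4 : (M+1) * (u / (M+1)) = M * (u / (M+1)) + u / (M+1) := by ring
  by_cases hρ : u % (M+1) = M
  · right
    have h5 : w / M = u / (M+1) + 1 := by
      rw [h2, hρ]
      rw [Nat.mul_add_div (by omega), Nat.div_self (by omega)]
    omega
  · left
    have h6 : u % (M+1) < M := lt_of_le_of_ne h3 hρ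
    have h5 : w / M = u / (M+1) := by
      rw [h2, Nat.mul_add_div (by omega), Nat.div_eq_of_lt h6]
      rfl
    omega

end Pool.Agent.Helper91.SR
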