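import Pool.Agent.Helper91.SR.Main

/-!
The host graph arrows the grid graph, for suitable parameters.
-/

set_option autoImplicit false
set_option linter.unusedSectionVars false
set_option linter.unusedVariables false

namespace Pool.Agent.Helper91.SR

open Finset Pool.Agent.Helper47.SizeRamsey

theorem pigeon {P Y : Type*} [Fintype P] [Fintype Y] [DecidableEq Y] [Nonempty Y] (f : P → Y) :
    ∃ y, Fintype.card P ≤ Fintype.card Y * (Finset.univ.filter (fun x => f x = y)).card := by
  obtain ⟨y, _, hy⟩ := Finset.exists_max_image (Finset.univ : Finset Y)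
    (fun y => (Finset.univ.filter (fun x => f x = y)).card) Finset.univ_nonempty
  refine ⟨y, ?_⟩
  have h1 := Finset.card_eq_sum_card_fiberwise (f := f) (s := (Finset.univ : Finset P))
    (t := (Finset.univ : Finset Y)) (fun _ _ => by simp)
  rw [Finset.card_univ] at h1
  rw [h1]
  calc ∑ b : Y, (Finset.univ.filter (fun x => f x = b)).card
      ≤ ∑ b : Y, (Finset.univ.filter (fun x => f x = y)).card :=
        Finset.sum_le_sum (fun b hb => hy b hb)
    _ = _ := by rw [Finset.sum_const, Finset.card_univ, smul_eq_mul]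

theorem host_arrows (d D : ℕ) (hd : 1 ≤ d) (hdD : d ≤ D) :
    ∃ (J : ℕ) (c : ℝ), 0 < c ∧ ∀ (p W M n : ℕ) [Fact p.Prime], J ≤ p → 1 ≤ n → 1 ≤ M →
      (4 : ℝ) * (2 * M + 1) ^ d ≤ c * p → (4 : ℝ) * p ^ d ≤ c * W → (d + 2) * n ≤ (M + 1) ^ D →
      Arrows (host d D J p W) (gridGraph d n) := by
  classical
  obtain ⟨J, hJ⟩ := ramsey_fin d D
  obtain ⟨c, hc, H⟩ := abstract_main d D (2 ^ D) (1 / 2 ^ (J + 1)) (by positivity)
  refine ⟨J, c, hc, ?_⟩
  intro p W M n _ hJp hn hM hconf hW hN χ
  have hp : 0 < p := (Fact.out : p.Prime).pos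
  have hWpos : 0 < W := by
    have h1 : (0 : ℝ) < 4 * p ^ d := by positivity
    have h2 : (0 : ℝ) < c * W := lt_of_lt_of_le h1 hW
    have h3 : (0 : ℝ) < W := by
      by_contra hcon
      have h4 : (W : ℝ) ≤ 0 := not_lt.1 hcon
      have h5 : c * (W : ℝ) ≤ 0 := mul_nonpos_of_nonneg_of_nonpos hc.le h4
      linarith
    exact_mod_cast h3
  have hWne : Nonempty (Fin W) := ⟨⟨0, hWpos⟩⟩
  -- majority colours
  let Q : (Fin D → ZMod p) → Finset (Fin J) → Bool → Finset (Fin W) := fun x K b =>
    Finset.univ.filter (fun z : Fin W => χ s(Sum.inl x, Sum.inr (K, flat K x, z)) = b)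
  let maj : (Fin D → ZMod p) → Finset (Fin J) → Bool := fun x K =>
    decide (W ≤ 2 * (Q x K true).card)
  have hmaj : ∀ x K b, maj x K = b → W ≤ 2 * (Q x K b).card := by
    intro x K b hb
    cases b with
    | true => exact of_decide_eq_true hb
    | false =>
      have h1 : ¬ W ≤ 2 * (Q x K true).card := of_decide_eq_false hb
      have h2 : (Q x K true).card + (Q x K false).card = W := by
        have h3 := Finset.card_filter_add_card_filter_not (s := (Finset.univ : Finset (Fin W)))
          (fun z : Fin W => χ s(Sum.inl x, Sum.inr (K, flat K x, z)) = true)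
        rw [Finset.card_univ, Fintype.card_fin] at h3
        have h4 : Finset.univ.filter (fun z : Fin W => ¬ χ s(Sum.inl x, Sum.inr (K, flat K x, z)) = true)
            = Q x K false := by
          ext z
          simp [Q]
        rw [h4] at h3
        exact h3
      omega
  choose T b hT1 hT2 using fun x => hJ (maj x)
  obtain ⟨⟨T₀, b₀⟩, hy⟩ := pigeon (fun x => (T x, b x))
  simp only [Prod.mk.injEq] at hy
  have hcardP : Fintype.card (Fin D → ZMod p) = p ^ D := by
    rw [Fintype.card_fun, Fintype.card_fin, ZMod.card]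
  have hcardY : Fintype.card (Finset (Fin J) × Bool) = 2 ^ (J + 1) := by
    rw [Fintype.card_prod, Fintype.card_finset, Fintype.card_fin, Fintype.card_bool, pow_succ]
  rw [hcardP, hcardY] at hy
  -- the fibre is nonempty
  have hne : (Finset.univ.filter (fun x => T x = T₀ ∧ b x = b₀)).Nonempty := by
    rw [← Finset.card_pos]
    by_contra hcon
    have h0 : (Finset.univ.filter (fun x => T x = T₀ ∧ b x = b₀)).card = 0 := by omega
    rw [h0, mul_zero] at hy
    have : 0 < p ^ D := by positivity
    omega
  obtain ⟨x₁, hx₁⟩ := hne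
  have hT₀ : T₀.card = D := by
    rw [← (Finset.mem_filter.1 hx₁).2.1]; exact hT1 x₁
  let I : Fin D ↪ Fin J := (T₀.orderEmbOfFin hT₀).toEmbedding
  have hI : ∀ i, I i ∈ T₀ := fun i => Finset.orderEmbOfFin_mem T₀ hT₀ i
  have hcrd : Function.Injective (crd I : (Fin D → ZMod p) → (Fin D → ZMod p)) := crd_injective hJp I
  have hcrdb : Function.Bijective (crd I : (Fin D → ZMod p) → (Fin D → ZMod p)) :=
    Finite.injective_iff_bijective.1 hcrd
  let X₀ : Finset (Fin D → ZMod p) := Finset.univ.filter (fun c => T (crd I c) = T₀ ∧ b (crd I c) = b₀)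
  have hX₀card : X₀.card = (Finset.univ.filter (fun x => T x = T₀ ∧ b x = b₀)).card := by
    apply Finset.card_bij (fun c _ => crd I c)
    · intro c hc
      rw [Finset.mem_filter] at hc ⊢
      exact ⟨Finset.mem_univ _, hc.2⟩
    · intro c _ c' _ h
      exact hcrd h
    · intro x hx
      obtain ⟨c, rfl⟩ := hcrdb.2 x
      refine ⟨c, ?_, rfl⟩
      rw [Finset.mem_filter] at hx ⊢
      exact ⟨Finset.mem_univ _, hx.2⟩
  let κ : Type := {K : Finset (Fin D) // K.card = d}
  have hκ : Fintype.card κ ≤ 2 ^ D := by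
    refine (Fintype.card_subtype_le _).trans ?_
    rw [Fintype.card_finset, Fintype.card_fin]
  obtain ⟨F, hF1, hF2, hF3⟩ := H (ZMod p) κ (Finset (Fin D → ZMod p)) (Fin W)
    (fun K x => flat (K.1.map I) (crd I x))
    (fun K x z => χ s(Sum.inl (crd I x), Sum.inr (K.1.map I, flat (K.1.map I) (crd I x), z)) = b₀)
    X₀ hκ
    (by
      rw [hX₀card, ZMod.card]
      rw [div_mul_eq_mul_div, one_mul, div_le_iff₀ (by positivity)]
      rw [mul_comm]
      exact_mod_cast hy)
    (by
      intro x hx K S hS
      rw [Finset.mem_filter] at hx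
      have h1 : S = Q (crd I x) (K.1.map I) b₀ := by
        ext z
        rw [hS z]
        simp [Q]
      rw [h1, Fintype.card_fin]
      apply hmaj
      have h2 := hT2 (crd I x) (K.1.map I) (by
        rw [hx.2.1]
        intro a ha
        obtain ⟨i, _, rfl⟩ := Finset.mem_map.1 ha
        exact hI i) (by rw [Finset.card_map]; exact K.2)
      rw [h2]
      exact hx.2.2)
    M hM (by rw [ZMod.card]; exact hconf)
  -- conclude
  obtain ⟨f, hf1, hf2⟩ := find_copy d D J p W n ((M+1) ^ D) hd hn hN χ b₀ (fun u => crd I (F u))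
    (fun u v hu hv huv => hF1 u v hu hv (hcrd huv))
    (by
      intro a ha
      have hbox : InBox ((M+1) ^ D) a Finset.univ := fun k => ⟨by have := ha k; omega, fun _ => ha k⟩
      obtain ⟨Y, hY1, hY2⟩ := hF3 a Finset.univ hbox
      rw [Finset.card_univ, Fintype.card_fin] at hY1
      obtain ⟨K, hYK, _, hKd⟩ := Finset.exists_subsuperset_card_eq (Finset.subset_univ Y) hY1
        (by rw [Finset.card_univ, Fintype.card_fin]; exact hdD)
      have hflat : ∀ x ∈ face a Finset.univ, flat (K.map I) (crd I (F x)) = flat (K.map I) (crd I (F a)) := by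
        intro x hx
        apply flat_eq
        apply crd_agree
        intro i hi
        exact hY2 a (self_mem_face _ _) x hx i (fun h => hi (hYK h))
      refine ⟨K.map I, by rw [Finset.card_map]; exact hKd, hflat, ?_⟩
      have h1 := hF2 a Finset.univ hbox ⟨K, hKd⟩ (by
        intro x hx y hy
        obtain ⟨x', hx', rfl⟩ := Finset.mem_image.1 hx
        obtain ⟨y', hy', rfl⟩ := Finset.mem_image.1 hy
        simp only
        rw [hflat x' hx', hflat y' hy'])
      rw [Fintype.card_fin] at h1
      have h2 := hW.trans h1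
      have h3 : 4 * p ^ d ≤ (Finset.univ.filter (fun z : Fin W => ∀ x ∈ (face a Finset.univ).image F,
          χ s(Sum.inl (crd I x), Sum.inr (K.map I, flat (K.map I) (crd I x), z)) = b₀)).card := by
        have h4 : ((4 * p ^ d : ℕ) : ℝ) ≤ ((Finset.univ.filter (fun z : Fin W => ∀ x ∈ (face a Finset.univ).image F,
          χ s(Sum.inl (crd I x), Sum.inr (K.map I, flat (K.map I) (crd I x), z)) = b₀)).card : ℝ) := by
          push_cast
          refine h2.trans (le_of_eq ?_)
          congr
        exact_mod_cast h4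
      refine h3.trans ?_
      apply Finset.card_le_card
      intro z hz
      rw [Finset.mem_filter] at hz ⊢
      refine ⟨Finset.mem_univ _, fun x hx => ?_⟩
      have h5 := hz.2 (F x) (Finset.mem_image_of_mem F hx)
      rw [hflat x hx] at h5
      exact h5)
  exact ⟨b₀, f, hf1, hf2⟩

end Pool.Agent.Helper91.SR
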