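import Pool.Agent.Helper91.SR.Arrow

/-!
The upper bound `C n^(d+ε)`.
-/

set_option autoImplicit false
set_option linter.unusedSectionVars false
set_option linter.unusedVariables false

namespace Pool.Agent.Helper91.SR

open Finset Pool.Agent.Helper47.SizeRamsey

/-- The side of the box. -/
theorem exists_side (D N : ℕ) (hD : 1 ≤ D) (hN : 2 ≤ N) :
    ∃ M : ℕ, 1 ≤ M ∧ N ≤ (M+1) ^ D ∧ (M+1) ^ D ≤ 2 ^ D * N := by
  have hex : ∃ M : ℕ, N ≤ (M+1) ^ D := ⟨N, by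
    calc N ≤ N + 1 := Nat.le_succ N
      _ = (N+1) ^ 1 := (pow_one _).symm
      _ ≤ (N+1) ^ D := Nat.pow_le_pow_right (by omega) hD⟩
  classical
  let M := Nat.find hex
  have h1 : N ≤ (M+1) ^ D := Nat.find_spec hex
  have hM1 : 1 ≤ M := by
    by_contra hcon
    have hM0 : M = 0 := by omega
    rw [hM0] at h1
    simp at h1
    omega
  have h2 : ¬ N ≤ ((M-1)+1) ^ D := Nat.find_min hex (show M - 1 < M by omega)
  refine ⟨M, hM1, h1, ?_⟩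
  have h3 : M - 1 + 1 = M := by omega
  rw [h3] at h2
  calc (M+1) ^ D ≤ (2 * M) ^ D := Nat.pow_le_pow_left (by omega) D
    _ = 2 ^ D * M ^ D := by rw [mul_pow]
    _ ≤ 2 ^ D * N := Nat.mul_le_mul_left _ (by omega)

theorem upper_bound (d : ℕ) (hd : 1 ≤ d) (ε : ℝ) (hε : 0 < ε) :
    ∃ C : ℝ, ∀ n : ℕ, 1 ≤ n → ∃ (V : Type) (_ : Fintype V) (G : SimpleGraph V),
      Arrows G (gridGraph d n) ∧ (G.edgeSet.ncard : ℝ) ≤ C * (n : ℝ) ^ ((d : ℝ) + ε) := by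
  set D : ℕ := d + ⌈(d : ℝ) ^ 2 / ε⌉₊ with hDdef
  have hdD : d ≤ D := by omega
  have hD1 : 1 ≤ D := by omega
  have hDr : (0 : ℝ) < D := by exact_mod_cast hD1
  have hDε : (d : ℝ) ^ 2 / D ≤ ε := by
    rw [div_le_iff₀ hDr]
    have h1 : (d : ℝ) ^ 2 / ε ≤ (D : ℝ) := by
      calc (d : ℝ) ^ 2 / ε ≤ (⌈(d : ℝ) ^ 2 / ε⌉₊ : ℝ) := Nat.le_ceil _
        _ ≤ (D : ℝ) := by exact_mod_cast (by omega : ⌈(d : ℝ) ^ 2 / ε⌉₊ ≤ D)
    rw [div_le_iff₀ hε] at h1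
    linarith
  obtain ⟨J, c, hc, H⟩ := host_arrows d D hd hdD
  set w : ℕ := ⌈4 / c⌉₊ with hw
  have hcw : 4 ≤ c * w := by
    have h1 : 4 / c ≤ (w : ℝ) := Nat.le_ceil _
    rw [div_le_iff₀ hc] at h1
    linarith
  set C₁ : ℝ := 2 * (4 * 2 ^ d / c + J + 2) with hC₁
  have hC₁pos : 0 < C₁ := by positivity
  set B : ℝ := 2 ^ D * (d + 2) with hB
  have hBpos : 0 < B := by positivity
  set e : ℝ := (d : ℝ) + (d : ℝ) ^ 2 / D with he
  have he0 : 0 ≤ e := by positivity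
  refine ⟨2 ^ J * w * C₁ ^ (D + d) * B ^ e, ?_⟩
  intro n hn
  have hn1 : (1 : ℝ) ≤ n := by exact_mod_cast hn
  obtain ⟨M, hM1, hM2, hM3⟩ := exists_side D ((d+2) * n) hD1 (by nlinarith)
  set x₀ : ℕ := ⌈4 * (2 * (M:ℝ) + 1) ^ d / c⌉₊ + J + 1 with hx₀
  obtain ⟨p, hp, hp1, hp2⟩ := Nat.exists_prime_lt_and_le_two_mul x₀ (by omega)
  have hfact : Fact p.Prime := ⟨hp⟩
  have hJp : J ≤ p := by omega
  have hcp : (4 : ℝ) * (2 * M + 1) ^ d ≤ c * p := by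
    have h1 : 4 * (2 * (M:ℝ) + 1) ^ d / c ≤ (p : ℝ) := by
      calc 4 * (2 * (M:ℝ) + 1) ^ d / c ≤ (⌈4 * (2 * (M:ℝ) + 1) ^ d / c⌉₊ : ℝ) := Nat.le_ceil _
        _ ≤ (p : ℝ) := by exact_mod_cast (by omega : ⌈4 * (2 * (M:ℝ) + 1) ^ d / c⌉₊ ≤ p)
    rw [div_le_iff₀ hc] at h1
    linarith
  have hW : (4 : ℝ) * p ^ d ≤ c * ((w * p ^ d : ℕ) : ℝ) := by
    push_cast
    calc (4 : ℝ) * p ^ d ≤ (c * w) * p ^ d := mul_le_mul_of_nonneg_right hcw (by positivity)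
      _ = _ := by ring
  refine ⟨HV D J p (w * p ^ d), inferInstance, host d D J p (w * p ^ d),
    H p (w * p ^ d) M n hJp hn hM1 hcp hW hM2, ?_⟩
  set y : ℝ := (M : ℝ) + 1 with hy
  have hy1 : 1 ≤ y := by
    have : (0 : ℝ) ≤ M := Nat.cast_nonneg M
    linarith
  have hpy : (p : ℝ) ≤ C₁ * y ^ d := by
    have h1 : (p : ℝ) ≤ 2 * x₀ := by exact_mod_cast hp2
    have h2 : (⌈4 * (2 * (M:ℝ) + 1) ^ d / c⌉₊ : ℝ) ≤ 4 * (2 * (M:ℝ) + 1) ^ d / c + 1 :=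
      (Nat.ceil_lt_add_one (by positivity)).le
    have h3 : (2 * (M:ℝ) + 1) ^ d ≤ 2 ^ d * y ^ d := by
      rw [← mul_pow]
      apply pow_le_pow_left₀ (by positivity)
      rw [hy]; linarith
    have h4 : (1 : ℝ) ≤ y ^ d := one_le_pow₀ hy1
    have h5 : (x₀ : ℝ) ≤ (4 * 2 ^ d / c + J + 2) * y ^ d := by
      rw [hx₀]
      push_cast
      have h6 : 4 * (2 * (M:ℝ) + 1) ^ d / c ≤ (4 * 2 ^ d / c) * y ^ d := by
        rw [div_mul_eq_mul_div, div_le_div_iff_of_pos_right hc]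
        calc 4 * (2 * (M:ℝ) + 1) ^ d ≤ 4 * (2 ^ d * y ^ d) := by linarith
          _ = _ := by ring
      have h7 : ((J : ℝ) + 2) * 1 ≤ ((J : ℝ) + 2) * y ^ d :=
        mul_le_mul_of_nonneg_left h4 (by positivity)
      calc (⌈4 * (2 * (M:ℝ) + 1) ^ d / c⌉₊ : ℝ) + J + 1 ≤ (4 * 2 ^ d / c) * y ^ d + ((J : ℝ) + 2) * 1 := by
            linarith
        _ ≤ (4 * 2 ^ d / c) * y ^ d + ((J : ℝ) + 2) * y ^ d := by linarith
        _ = _ := by ring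
    calc (p : ℝ) ≤ 2 * x₀ := h1
      _ ≤ 2 * ((4 * 2 ^ d / c + J + 2) * y ^ d) := by linarith
      _ = C₁ * y ^ d := by rw [hC₁]; ring
  have hyD : y ^ D ≤ B * n := by
    have h1 : (((M+1) ^ D : ℕ) : ℝ) ≤ ((2 ^ D * ((d+2) * n) : ℕ) : ℝ) := by exact_mod_cast hM3
    push_cast at h1
    calc y ^ D ≤ 2 ^ D * ((d + 2) * n) := h1
      _ = B * n := by rw [hB]; ring
  have hye : (y ^ d) ^ (D + d) ≤ B ^ e * (n : ℝ) ^ e := by
    have h1 : (y ^ d) ^ (D + d) = (y ^ D) ^ e := by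
      rw [← pow_mul, ← Real.rpow_natCast, ← Real.rpow_natCast, ← Real.rpow_mul (by linarith)]
      congr 1
      rw [he]
      push_cast
      field_simp
    rw [h1, ← Real.mul_rpow hBpos.le (by linarith)]
    exact Real.rpow_le_rpow (by positivity) hyD he0
  have hne : (n : ℝ) ^ e ≤ (n : ℝ) ^ ((d : ℝ) + ε) :=
    Real.rpow_le_rpow_of_exponent_le hn1 (by rw [he]; linarith)
  have hedge : ((host d D J p (w * p ^ d)).edgeSet.ncard : ℝ) ≤ 2 ^ J * w * (p : ℝ) ^ (D + d) := by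
    have h1 : ((host d D J p (w * p ^ d)).edgeSet.ncard : ℝ) ≤ ((p ^ D * (2 ^ J * (w * p ^ d)) : ℕ) : ℝ) := by
      exact_mod_cast host_edges d D J p (w * p ^ d)
    push_cast at h1
    calc _ ≤ _ := h1
      _ = _ := by ring
  calc ((host d D J p (w * p ^ d)).edgeSet.ncard : ℝ) ≤ 2 ^ J * w * (p : ℝ) ^ (D + d) := hedge
    _ ≤ 2 ^ J * w * (C₁ * y ^ d) ^ (D + d) := by
        apply mul_le_mul_of_nonneg_left _ (by positivity)
        exact pow_le_pow_left₀ (by positivity) hpy _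
    _ = 2 ^ J * w * C₁ ^ (D + d) * (y ^ d) ^ (D + d) := by rw [mul_pow]; ring
    _ ≤ 2 ^ J * w * C₁ ^ (D + d) * (B ^ e * (n : ℝ) ^ e) := by
        apply mul_le_mul_of_nonneg_left hye; positivity
    _ ≤ 2 ^ J * w * C₁ ^ (D + d) * (B ^ e * (n : ℝ) ^ ((d : ℝ) + ε)) := by
        apply mul_le_mul_of_nonneg_left _ (by positivity)
        apply mul_le_mul_of_nonneg_left hne; positivity
    _ = _ := by ring

end Pool.Agent.Helper91.SR
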