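import Pool.Agent.Helper91.SR.Greedy

/-!
Goodness of finite sets of points of a product, and the anchor argument.
-/

set_option autoImplicit false
set_option linter.unusedSectionVars false
set_option linter.unusedVariables false

namespace Pool.Agent.Helper91.SR

open Finset

variable {A : Type*} [Fintype A] [DecidableEq A] {D : ℕ}

/-- Overwrite coordinate `t`. -/
def upd (x : Fin D → A) (t : ℕ) (h : A) : Fin D → A := fun i => if (i : ℕ) = t then h else x i

/-- The values `h` which can be written at coordinate `t` of all points of `T` within `X`. -/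
def nb (X : Finset (Fin D → A)) (t : ℕ) (T : Finset (Fin D → A)) : Finset A :=
  Finset.univ.filter (fun h => ∀ x ∈ T, upd x t h ∈ X)

/-- All points of `T` with all values of `H` written at coordinate `t`. -/
def ext (t : ℕ) (T : Finset (Fin D → A)) (H : Finset A) : Finset (Fin D → A) :=
  (T ×ˢ H).image (fun p => upd p.1 t p.2)

theorem mem_ext {t : ℕ} {T : Finset (Fin D → A)} {H : Finset A} {y : Fin D → A} :
    y ∈ ext t T H ↔ ∃ x ∈ T, ∃ h ∈ H, upd x t h = y := by
  unfold ext
  rw [Finset.mem_image]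
  constructor
  · rintro ⟨p, hp, rfl⟩
    rw [Finset.mem_product] at hp
    exact ⟨p.1, hp.1, p.2, hp.2, rfl⟩
  · rintro ⟨x, hx, h, hh, rfl⟩
    exact ⟨(x, h), Finset.mem_product.2 ⟨hx, hh⟩, rfl⟩

theorem mem_nb {X : Finset (Fin D → A)} {t : ℕ} {T : Finset (Fin D → A)} {h : A} :
    h ∈ nb X t T ↔ ∀ x ∈ T, upd x t h ∈ X := by
  simp [nb]

open Classical in
/-- Recursive goodness. -/
def good (X : Finset (Fin D → A)) (FG : Finset (Fin D → A) → Prop) (s : ℕ) (β η : ℕ → ℝ) :
    ℕ → Finset (Fin D → A) → Prop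
  | 0, T => FG T
  | t+1, T => β t * (Fintype.card A : ℝ) ≤ ((nb X t T).card : ℝ) ∧ ∀ r : ℕ, 1 ≤ r → r ≤ s →
      ((Finset.univ.filter (fun H : Fin r → A => (∀ i, H i ∈ nb X t T) ∧
        ¬ good X FG s β η t (ext t T (Finset.univ.image H)))).card : ℝ)
          ≤ η t * ((nb X t T).card : ℝ) ^ r

/-- Points with anchored coordinates below `t`. -/
def mix (t : ℕ) (b x : Fin D → A) : Fin D → A := fun i => if (i : ℕ) < t then b i else x i

/-- Sets of points with anchored coordinates below `t`. -/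
def mixS (t : ℕ) (b : Fin D → A) (T : Finset (Fin D → A)) : Finset (Fin D → A) :=
  T.image (mix t b)

theorem upd_mix (t : ℕ) (b x : Fin D → A) (h : A) :
    upd (mix (t+1) b x) t h = mix t b (upd x t h) := by
  funext i
  unfold upd mix
  by_cases h1 : (i : ℕ) = t
  · simp [h1]
  · by_cases h2 : (i : ℕ) < t
    · have h3 : (i : ℕ) < t + 1 := by omega
      simp [h1, h2, h3]
    · have h3 : ¬ (i : ℕ) < t + 1 := by omega
      simp [h1, h2, h3]

theorem ext_mixS (t : ℕ) (b : Fin D → A) (T : Finset (Fin D → A)) (H : Finset A) :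
    ext t (mixS (t+1) b T) H = mixS t b (ext t T H) := by
  ext y
  unfold mixS
  rw [mem_ext, Finset.mem_image]
  constructor
  · rintro ⟨x, hx, h, hh, rfl⟩
    obtain ⟨x', hx', rfl⟩ := Finset.mem_image.1 hx
    refine ⟨upd x' t h, mem_ext.2 ⟨x', hx', h, hh, rfl⟩, ?_⟩
    rw [upd_mix]
  · rintro ⟨z, hz, rfl⟩
    obtain ⟨x, hx, h, hh, rfl⟩ := mem_ext.1 hz
    exact ⟨mix (t+1) b x, Finset.mem_image_of_mem _ hx, h, hh, upd_mix _ _ _ _⟩

theorem upd_mix_update (t : ℕ) (ht : t < D) (b x : Fin D → A) (h h' : A) :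
    upd (mix (t+1) (Function.update b ⟨t, ht⟩ h') x) t h = upd (mix (t+1) b x) t h := by
  funext i
  unfold upd mix
  by_cases h1 : (i : ℕ) = t
  · simp [h1]
  · have h2 : i ≠ ⟨t, ht⟩ := fun h => h1 (by rw [h])
    simp [h1, Function.update_of_ne h2]

theorem nb_mixS_update (X : Finset (Fin D → A)) (t : ℕ) (ht : t < D) (b : Fin D → A)
    (T : Finset (Fin D → A)) (h' : A) :
    nb X t (mixS (t+1) (Function.update b ⟨t, ht⟩ h') T) = nb X t (mixS (t+1) b T) := by
  ext h
  rw [mem_nb, mem_nb]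
  unfold mixS
  constructor
  · intro H x hx
    obtain ⟨x', hx', rfl⟩ := Finset.mem_image.1 hx
    have := H _ (Finset.mem_image_of_mem _ hx')
    rwa [upd_mix_update] at this
  · intro H x hx
    obtain ⟨x', hx', rfl⟩ := Finset.mem_image.1 hx
    have := H _ (Finset.mem_image_of_mem _ hx')
    rwa [upd_mix_update]

theorem mem_nb_of_subset (X : Finset (Fin D → A)) (t : ℕ) (ht : t < D) (b : Fin D → A)
    (T : Finset (Fin D → A)) (h : mixS (t+1) b T ⊆ X) : b ⟨t, ht⟩ ∈ nb X t (mixS (t+1) b T) := by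
  rw [mem_nb]
  intro x hx
  have hx' := hx
  unfold mixS at hx'
  obtain ⟨x', _, rfl⟩ := Finset.mem_image.1 hx'
  have : upd (mix (t+1) b x') t (b ⟨t, ht⟩) = mix (t+1) b x' := by
    funext i
    unfold upd
    by_cases h1 : (i : ℕ) = t
    · have h2 : i = ⟨t, ht⟩ := Fin.ext h1
      subst h2
      simp [mix]
    · simp [h1]
  rw [this]
  exact h hx

section prob

variable {Ω : Type*} [Fintype Ω] (X : Ω → Finset (Fin D → A))
  (FG : Finset (Fin D → A) → Prop) (s : ℕ) (β η g : ℕ → ℝ)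

open Classical in
/-- Indicator of a proposition. -/
noncomputable def ind (P : Prop) : ℝ := if P then 1 else 0

theorem ind_of {P : Prop} (h : P) : ind P = 1 := by classical simp [ind, h]

theorem ind_of_not {P : Prop} (h : ¬ P) : ind P = 0 := by classical simp [ind, h]

theorem ind_nonneg (P : Prop) : 0 ≤ ind P := by
  by_cases h : P
  · rw [ind_of h]; norm_num
  · rw [ind_of_not h]

theorem ind_mono {P Q : Prop} (h : P → Q) : ind P ≤ ind Q := by
  by_cases hp : P
  · rw [ind_of hp, ind_of (h hp)]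
  · rw [ind_of_not hp]; exact ind_nonneg Q

theorem sum_ind {α : Type*} [Fintype α] (P : α → Prop) [DecidablePred P] :
    ∑ a, ind (P a) = ((Finset.univ.filter P).card : ℝ) := by
  classical
  rw [Finset.card_filter]
  push_cast
  apply Finset.sum_congr rfl
  intro a _
  by_cases h : P a
  · rw [ind_of h, if_pos h]
  · rw [ind_of_not h, if_neg h]

/-- Number of pairs `(ω, b)` satisfying a predicate. -/
noncomputable def Pr {D : ℕ} {A Ω : Type*} [Fintype Ω] [Fintype A] [DecidableEq A] (P : Ω → (Fin D → A) → Prop) : ℝ :=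
  ∑ ω : Ω, ∑ b : Fin D → A, ind (P ω b)

theorem Pr_mono {P Q : Ω → (Fin D → A) → Prop} (h : ∀ ω b, P ω b → Q ω b) : Pr P ≤ Pr Q := by
  classical
  unfold Pr
  apply Finset.sum_le_sum
  intro ω _
  apply Finset.sum_le_sum
  intro b _
  exact ind_mono (h ω b)

theorem Pr_or_le {P Q : Ω → (Fin D → A) → Prop} : Pr (fun ω b => P ω b ∨ Q ω b) ≤ Pr P + Pr Q := by
  classical
  unfold Pr
  rw [← Finset.sum_add_distrib]
  apply Finset.sum_le_sum
  intro ω _
  rw [← Finset.sum_add_distrib]
  apply Finset.sum_le_sum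
  intro b _
  by_cases hp : P ω b
  · have := ind_nonneg (Q ω b)
    rw [ind_of (Or.inl hp), ind_of hp]
    linarith
  · by_cases hq : Q ω b
    · rw [ind_of (Or.inr hq), ind_of hq, ind_of_not hp]; norm_num
    · rw [ind_of_not (not_or.2 ⟨hp, hq⟩), ind_of_not hp, ind_of_not hq]; norm_num

theorem Pr_exists_le {ι : Type*} (I : Finset ι) (P : ι → Ω → (Fin D → A) → Prop) :
    Pr (fun ω b => ∃ i ∈ I, P i ω b) ≤ ∑ i ∈ I, Pr (P i) := by
  classical
  induction I using Finset.induction_on with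
  | empty =>
    simp [Pr, ind]
  | insert i I hi ih =>
    rw [Finset.sum_insert hi]
    calc Pr (fun ω b => ∃ j ∈ insert i I, P j ω b)
        ≤ Pr (fun ω b => P i ω b ∨ ∃ j ∈ I, P j ω b) := by
          apply Pr_mono
          rintro ω b ⟨j, hj, hp⟩
          rw [Finset.mem_insert] at hj
          rcases hj with rfl | hj
          · exact Or.inl hp
          · exact Or.inr ⟨j, hj, hp⟩
      _ ≤ Pr (P i) + Pr (fun ω b => ∃ j ∈ I, P j ω b) := Pr_or_le
      _ ≤ _ := by linarith

theorem Pr_nonneg (P : Ω → (Fin D → A) → Prop) : 0 ≤ Pr P := by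
  classical
  unfold Pr
  apply Finset.sum_nonneg
  intro ω _
  apply Finset.sum_nonneg
  intro b _
  exact ind_nonneg _

/-- first kind of failure: few values. -/
theorem fail_one (t : ℕ) (ht : t < D) (hβ : 0 ≤ β t) (T : Finset (Fin D → A)) [Nonempty A] :
    Pr (fun ω b => mixS (t+1) b T ⊆ X ω ∧
      ¬ (β t * (Fintype.card A : ℝ) ≤ ((nb (X ω) t (mixS (t+1) b T)).card : ℝ)))
    ≤ β t * ((Fintype.card Ω : ℝ) * (Fintype.card A : ℝ) ^ D) := by
  classical
  have hq : (0 : ℝ) < (Fintype.card A : ℝ) := by exact_mod_cast Fintype.card_pos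
  unfold Pr
  have h1 : ∀ ω : Ω, ∑ b : Fin D → A, ind (mixS (t+1) b T ⊆ X ω ∧
      ¬ (β t * (Fintype.card A : ℝ) ≤ ((nb (X ω) t (mixS (t+1) b T)).card : ℝ)))
      ≤ β t * (Fintype.card A : ℝ) ^ D := by
    intro ω
    let f : (Fin D → A) → ℝ := fun b =>
      ind (b ⟨t, ht⟩ ∈ nb (X ω) t (mixS (t+1) b T) ∧
        ¬ (β t * (Fintype.card A : ℝ) ≤ ((nb (X ω) t (mixS (t+1) b T)).card : ℝ)))
    have h2 : ∑ b : Fin D → A, ind (mixS (t+1) b T ⊆ X ω ∧
      ¬ (β t * (Fintype.card A : ℝ) ≤ ((nb (X ω) t (mixS (t+1) b T)).card : ℝ)))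
      ≤ ∑ b : Fin D → A, f b := by
      apply Finset.sum_le_sum
      intro b _
      exact ind_mono (fun hp => ⟨mem_nb_of_subset _ _ ht _ _ hp.1, hp.2⟩)
    have h3 := resample (fun _ : Fin D => (Finset.univ : Finset A)) ⟨t, ht⟩ f
    rw [Fintype.piFinset_univ] at h3
    rw [Finset.sum_comm] at h3
    have h4 : ∀ b : Fin D → A, ∑ h : A, f (Function.update b ⟨t, ht⟩ h)
        ≤ β t * (Fintype.card A : ℝ) := by
      intro b
      simp only [f, nb_mixS_update, Function.update_self]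
      by_cases hN : β t * (Fintype.card A : ℝ) ≤ ((nb (X ω) t (mixS (t+1) b T)).card : ℝ)
      · simp only [hN, not_true_eq_false, and_false]
        rw [Finset.sum_congr rfl (fun a _ => ind_of_not (fun h : False => h)), Finset.sum_const_zero]
        positivity
      · simp only [hN, not_false_eq_true, and_true]
        rw [sum_ind]
        have : Finset.univ.filter (fun a => a ∈ nb (X ω) t (mixS (t+1) b T))
            = nb (X ω) t (mixS (t+1) b T) := by
          ext a; simp
        rw [this]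
        exact (not_le.1 hN).le
    have h5 : (Fintype.card A : ℝ) * ∑ b : Fin D → A, f b
        ≤ (Fintype.card A : ℝ) * (β t * (Fintype.card A : ℝ) ^ D) := by
      have h6 : (Finset.univ : Finset A).card = Fintype.card A := Finset.card_univ
      rw [h6] at h3
      rw [← h3]
      calc ∑ b : Fin D → A, ∑ h : A, f (Function.update b ⟨t, ht⟩ h)
          ≤ ∑ b : Fin D → A, β t * (Fintype.card A : ℝ) := Finset.sum_le_sum (fun b _ => h4 b)
        _ = (Fintype.card A : ℝ) ^ D * (β t * (Fintype.card A : ℝ)) := by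
            rw [Finset.sum_const, nsmul_eq_mul, Finset.card_univ, Fintype.card_fun, Fintype.card_fin]
            push_cast
            ring
        _ = _ := by ring
    have h7 : ∑ b : Fin D → A, f b ≤ β t * (Fintype.card A : ℝ) ^ D :=
      le_of_mul_le_mul_left h5 hq
    linarith
  calc _ ≤ ∑ ω : Ω, β t * (Fintype.card A : ℝ) ^ D := Finset.sum_le_sum (fun ω _ => h1 ω)
    _ = _ := by
        rw [Finset.sum_const, nsmul_eq_mul, Finset.card_univ]
        ring

open Classical in
/-- second kind of failure: many bad extensions. -/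
theorem fail_two (t : ℕ) (ht : t < D) (hβ : 0 < β t) (hβ1 : β t ≤ 1) (hη : 0 < η t)
    (hg : 0 ≤ g t) (T : Finset (Fin D → A)) (hT : T.Nonempty) [Nonempty A]
    (r : ℕ) (hr1 : 1 ≤ r) (hrs : r ≤ s)
    (ih : ∀ T₀ : Finset (Fin D → A), T₀.Nonempty →
      Pr (fun ω b => mixS t b T₀ ⊆ X ω ∧ ¬ good (X ω) FG s β η t (mixS t b T₀))
        ≤ g t * ((Fintype.card Ω : ℝ) * (Fintype.card A : ℝ) ^ D)) :
    Pr (fun ω b => β t * (Fintype.card A : ℝ) ≤ ((nb (X ω) t (mixS (t+1) b T)).card : ℝ) ∧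
      ¬ ((Finset.univ.filter (fun H : Fin r → A => (∀ i, H i ∈ nb (X ω) t (mixS (t+1) b T)) ∧
        ¬ good (X ω) FG s β η t (ext t (mixS (t+1) b T) (Finset.univ.image H)))).card : ℝ)
          ≤ η t * ((nb (X ω) t (mixS (t+1) b T)).card : ℝ) ^ r)
    ≤ g t / (η t * β t ^ s) * ((Fintype.card Ω : ℝ) * (Fintype.card A : ℝ) ^ D) := by
  have hq : (0 : ℝ) < (Fintype.card A : ℝ) := by exact_mod_cast Fintype.card_pos
  set q : ℝ := (Fintype.card A : ℝ) with hqdef
  -- pointwise Markov
  have h1 : Pr (fun ω b => β t * q ≤ ((nb (X ω) t (mixS (t+1) b T)).card : ℝ) ∧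
      ¬ ((Finset.univ.filter (fun H : Fin r → A => (∀ i, H i ∈ nb (X ω) t (mixS (t+1) b T)) ∧
        ¬ good (X ω) FG s β η t (ext t (mixS (t+1) b T) (Finset.univ.image H)))).card : ℝ)
          ≤ η t * ((nb (X ω) t (mixS (t+1) b T)).card : ℝ) ^ r) * (η t * (β t * q) ^ r)
      ≤ ∑ H : Fin r → A, Pr (fun ω b => mixS t b (ext t T (Finset.univ.image H)) ⊆ X ω ∧
          ¬ good (X ω) FG s β η t (mixS t b (ext t T (Finset.univ.image H)))) := by
    have hR : ∑ H : Fin r → A, Pr (fun ω b => mixS t b (ext t T (Finset.univ.image H)) ⊆ X ω ∧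
          ¬ good (X ω) FG s β η t (mixS t b (ext t T (Finset.univ.image H))))
        = ∑ ω : Ω, ∑ b : Fin D → A, ∑ H : Fin r → A,
          ind (mixS t b (ext t T (Finset.univ.image H)) ⊆ X ω ∧
          ¬ good (X ω) FG s β η t (mixS t b (ext t T (Finset.univ.image H)))) := by
      unfold Pr
      rw [Finset.sum_comm]
      apply Finset.sum_congr rfl
      intro ω _
      rw [Finset.sum_comm]
    rw [hR]
    unfold Pr
    rw [Finset.sum_mul]
    apply Finset.sum_le_sum
    intro ω _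
    rw [Finset.sum_mul]
    apply Finset.sum_le_sum
    intro b _
    beta_reduce
    have hsub : ((Finset.univ.filter (fun H : Fin r → A => (∀ i, H i ∈ nb (X ω) t (mixS (t+1) b T)) ∧
        ¬ good (X ω) FG s β η t (ext t (mixS (t+1) b T) (Finset.univ.image H)))).card : ℝ)
        ≤ ∑ H : Fin r → A, ind (mixS t b (ext t T (Finset.univ.image H)) ⊆ X ω ∧
          ¬ good (X ω) FG s β η t (mixS t b (ext t T (Finset.univ.image H)))) := by
      rw [sum_ind]
      have : Finset.univ.filter (fun H : Fin r → A => (∀ i, H i ∈ nb (X ω) t (mixS (t+1) b T)) ∧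
        ¬ good (X ω) FG s β η t (ext t (mixS (t+1) b T) (Finset.univ.image H)))
        ⊆ Finset.univ.filter (fun H : Fin r → A => mixS t b (ext t T (Finset.univ.image H)) ⊆ X ω ∧
          ¬ good (X ω) FG s β η t (mixS t b (ext t T (Finset.univ.image H)))) := by
        intro H hH
        rw [Finset.mem_filter] at hH ⊢
        refine ⟨hH.1, ?_, ?_⟩
        · rw [← ext_mixS]
          intro y hy
          obtain ⟨x, hx, h, hh, rfl⟩ := mem_ext.1 hy
          obtain ⟨i, _, rfl⟩ := Finset.mem_image.1 hh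
          exact mem_nb.1 (hH.2.1 i) x hx
        · rw [← ext_mixS]
          exact hH.2.2
      exact_mod_cast Finset.card_le_card this
    by_cases hp : β t * q ≤ ((nb (X ω) t (mixS (t+1) b T)).card : ℝ) ∧
      ¬ ((Finset.univ.filter (fun H : Fin r → A => (∀ i, H i ∈ nb (X ω) t (mixS (t+1) b T)) ∧
        ¬ good (X ω) FG s β η t (ext t (mixS (t+1) b T) (Finset.univ.image H)))).card : ℝ)
          ≤ η t * ((nb (X ω) t (mixS (t+1) b T)).card : ℝ) ^ r
    · rw [ind_of hp, one_mul]
      refine le_trans ?_ hsub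
      refine le_trans ?_ (not_le.1 hp.2).le
      apply mul_le_mul_of_nonneg_left _ hη.le
      apply pow_le_pow_left₀ (by positivity) hp.1
    · rw [ind_of_not hp, zero_mul]
      apply Finset.sum_nonneg
      intro H _
      exact ind_nonneg _
  have h2 : ∑ H : Fin r → A, Pr (fun ω b => mixS t b (ext t T (Finset.univ.image H)) ⊆ X ω ∧
          ¬ good (X ω) FG s β η t (mixS t b (ext t T (Finset.univ.image H))))
      ≤ q ^ r * (g t * ((Fintype.card Ω : ℝ) * q ^ D)) := by
    calc _ ≤ ∑ H : Fin r → A, (g t * ((Fintype.card Ω : ℝ) * q ^ D)) := by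
          apply Finset.sum_le_sum
          intro H _
          apply ih
          obtain ⟨x, hx⟩ := hT
          exact ⟨upd x t (H ⟨0, by omega⟩), mem_ext.2 ⟨x, hx, H ⟨0, by omega⟩,
            Finset.mem_image_of_mem _ (Finset.mem_univ _), rfl⟩⟩
      _ = _ := by
          rw [Finset.sum_const, nsmul_eq_mul, Finset.card_univ, Fintype.card_fun, Fintype.card_fin]
          push_cast
          rfl
  have h3 := h1.trans h2
  have hpow : β t ^ s ≤ β t ^ r := pow_le_pow_of_le_one hβ.le hβ1 hrs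
  have hqr : 0 < q ^ r := by positivity
  have hpos : 0 < η t * β t ^ s := by positivity
  set P := Pr (fun ω b => β t * q ≤ ((nb (X ω) t (mixS (t+1) b T)).card : ℝ) ∧
      ¬ ((Finset.univ.filter (fun H : Fin r → A => (∀ i, H i ∈ nb (X ω) t (mixS (t+1) b T)) ∧
        ¬ good (X ω) FG s β η t (ext t (mixS (t+1) b T) (Finset.univ.image H)))).card : ℝ)
          ≤ η t * ((nb (X ω) t (mixS (t+1) b T)).card : ℝ) ^ r) with hPdef
  have hP0 : 0 ≤ P := Pr_nonneg _
  rw [div_mul_eq_mul_div, le_div_iff₀ hpos]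
  have h4 : P * (η t * β t ^ s) * q ^ r ≤ P * (η t * (β t * q) ^ r) := by
    calc P * (η t * β t ^ s) * q ^ r = P * (η t * (β t ^ s * q ^ r)) := by ring
      _ ≤ P * (η t * (β t ^ r * q ^ r)) := by
          apply mul_le_mul_of_nonneg_left _ hP0
          apply mul_le_mul_of_nonneg_left _ hη.le
          apply mul_le_mul_of_nonneg_right hpow hqr.le
      _ = _ := by rw [mul_pow]
  have h5 : P * (η t * β t ^ s) * q ^ r ≤ (g t * ((Fintype.card Ω : ℝ) * q ^ D)) * q ^ r := by
    calc _ ≤ _ := h4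
      _ ≤ _ := h3
      _ = _ := by ring
  exact le_of_mul_le_mul_right h5 hqr

/-- The main induction. -/
theorem claim (hβ : ∀ t, t < D → 0 < β t) (hβ1 : ∀ t, t < D → β t ≤ 1) (hη : ∀ t, t < D → 0 < η t)
    (hg : ∀ t, t ≤ D → 0 ≤ g t)
    (hrec : ∀ t, t < D → β t + s * (g t / (η t * β t ^ s)) ≤ g (t+1)) [Nonempty A]
    (h0 : ∀ T : Finset (Fin D → A), T.Nonempty →
      Pr (fun ω (_ : Fin D → A) => T ⊆ X ω ∧ ¬ FG T)
        ≤ g 0 * ((Fintype.card Ω : ℝ) * (Fintype.card A : ℝ) ^ D)) :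
    ∀ t, t ≤ D → ∀ T : Finset (Fin D → A), T.Nonempty →
      Pr (fun ω b => mixS t b T ⊆ X ω ∧ ¬ good (X ω) FG s β η t (mixS t b T))
        ≤ g t * ((Fintype.card Ω : ℝ) * (Fintype.card A : ℝ) ^ D) := by
  classical
  intro t
  induction t with
  | zero =>
    intro _ T hT
    refine le_trans (Pr_mono ?_) (h0 T hT)
    intro ω b h
    have hm : mixS 0 b T = T := by
      unfold mixS
      have : mix 0 b = (id : (Fin D → A) → _) := by
        funext x i
        simp [mix]
      rw [this, Finset.image_id]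
    rw [hm] at h
    exact h
  | succ t ih =>
    intro ht T hT
    have ht' : t < D := by omega
    have ih' := ih ht'.le
    set Q : ℝ := (Fintype.card Ω : ℝ) * (Fintype.card A : ℝ) ^ D with hQ
    have hQ0 : 0 ≤ Q := by positivity
    have e1 := fail_one X β t ht' (hβ t ht').le T
    have e2 : ∀ r ∈ Finset.Icc 1 s, _ := fun r hr =>
      fail_two X FG s β η g t ht' (hβ t ht') (hβ1 t ht') (hη t ht') (hg t ht'.le) T hT r
        (Finset.mem_Icc.1 hr).1 (Finset.mem_Icc.1 hr).2 ih'
    have e3 := Finset.sum_le_sum e2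
    rw [Finset.sum_const, nsmul_eq_mul, Nat.card_Icc, Nat.add_sub_cancel] at e3
    have e4 := (Pr_exists_le (Ω := Ω) (Finset.Icc 1 s) _).trans e3
    refine le_trans (Pr_mono ?_) (le_trans (Pr_or_le (Ω := Ω)) (le_trans (add_le_add e1 e4) ?_))
    · rintro ω b ⟨h1, h2⟩
      rw [good] at h2
      rw [not_and_or] at h2
      rcases h2 with h2 | h2
      · exact Or.inl ⟨h1, h2⟩
      · by_cases h3 : β t * (Fintype.card A : ℝ) ≤ ((nb (X ω) t (mixS (t+1) b T)).card : ℝ)
        · right
          push Not at h2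
          obtain ⟨r, hr1, hr2, hr3⟩ := h2
          exact ⟨r, Finset.mem_Icc.2 ⟨hr1, hr2⟩, h3, not_le.2 hr3⟩
        · exact Or.inl ⟨h1, h3⟩
    · calc β t * Q + s * (g t / (η t * β t ^ s) * Q) = (β t + s * (g t / (η t * β t ^ s))) * Q := by ring
        _ ≤ g (t+1) * Q := mul_le_mul_of_nonneg_right (hrec t ht') hQ0

/-- Existence of a good anchor. -/
theorem exists_anchor (hβ : ∀ t, t < D → 0 < β t) (hβ1 : ∀ t, t < D → β t ≤ 1)
    (hη : ∀ t, t < D → 0 < η t) (hg : ∀ t, t ≤ D → 0 ≤ g t)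
    (hrec : ∀ t, t < D → β t + s * (g t / (η t * β t ^ s)) ≤ g (t+1)) [Nonempty A]
    (h0 : ∀ T : Finset (Fin D → A), T.Nonempty →
      Pr (fun ω (_ : Fin D → A) => T ⊆ X ω ∧ ¬ FG T)
        ≤ g 0 * ((Fintype.card Ω : ℝ) * (Fintype.card A : ℝ) ^ D))
    (hX : g D * ((Fintype.card Ω : ℝ) * (Fintype.card A : ℝ) ^ D) < ∑ ω, ((X ω).card : ℝ)) :
    ∃ (ω : Ω) (b : Fin D → A), b ∈ X ω ∧ good (X ω) FG s β η D {b} := by
  classical
  by_contra hcon
  push Not at hcon
  obtain ⟨a⟩ := ‹Nonempty A›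
  have h1 := claim X FG s β η g hβ hβ1 hη hg hrec h0 D le_rfl {fun _ => a} (by simp)
  have hm : ∀ b : Fin D → A, mixS D b {fun _ => a} = {b} := by
    intro b
    unfold mixS
    rw [Finset.image_singleton]
    congr 1
    funext i
    simp [mix]
  simp only [hm, Finset.singleton_subset_iff] at h1
  have h2 : ∑ ω, ((X ω).card : ℝ) ≤ Pr (fun ω b => b ∈ X ω ∧ ¬ good (X ω) FG s β η D {b}) := by
    unfold Pr
    apply Finset.sum_le_sum
    intro ω _
    rw [sum_ind]
    have : X ω ⊆ Finset.univ.filter (fun b => b ∈ X ω ∧ ¬ good (X ω) FG s β η D {b}) := by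
      intro b hb
      simp only [Finset.mem_filter, Finset.mem_univ, true_and]
      exact ⟨hb, hcon ω b hb⟩
    exact_mod_cast Finset.card_le_card this
  linarith

end prob

end Pool.Agent.Helper91.SR
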