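import Mathlib

/-!
A greedy (method of conditional expectations) selection lemma.
-/

set_option autoImplicit false
set_option linter.unusedSectionVars false
set_option linter.unusedVariables false

namespace Pool.Agent.Helper91.SR

open Finset

/-- Resampling one coordinate of a product. -/
theorem resample {ι A : Type*} [Fintype ι] [DecidableEq ι] [DecidableEq A] (L : ι → Finset A) (i₀ : ι)
    (f : (ι → A) → ℝ) :
    ∑ h ∈ L i₀, ∑ H ∈ Fintype.piFinset L, f (Function.update H i₀ h)
      = (L i₀).card * ∑ H ∈ Fintype.piFinset L, f H := by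
  classical
  have h1 : ∑ h ∈ L i₀, ∑ H ∈ Fintype.piFinset L, f (Function.update H i₀ h)
      = ∑ p ∈ L i₀ ×ˢ Fintype.piFinset L, f (Function.update p.2 i₀ p.1) := by
    rw [Finset.sum_product]
  have h2 : ((L i₀).card : ℝ) * ∑ H ∈ Fintype.piFinset L, f H
      = ∑ p ∈ L i₀ ×ˢ Fintype.piFinset L, f p.2 := by
    rw [Finset.sum_product]
    simp only
    rw [Finset.sum_const, nsmul_eq_mul]
  rw [h1, h2]
  refine Finset.sum_bij' (fun p _ => (p.2 i₀, Function.update p.2 i₀ p.1))
    (fun p _ => (p.2 i₀, Function.update p.2 i₀ p.1)) ?_ ?_ ?_ ?_ ?_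
  · intro p hp
    rw [Finset.mem_product, Fintype.mem_piFinset] at hp ⊢
    refine ⟨hp.2 i₀, fun i => ?_⟩
    by_cases hi : i = i₀
    · subst hi; simpa using hp.1
    · simpa [Function.update_of_ne hi] using hp.2 i
  · intro p hp
    rw [Finset.mem_product, Fintype.mem_piFinset] at hp ⊢
    refine ⟨hp.2 i₀, fun i => ?_⟩
    by_cases hi : i = i₀
    · subst hi; simpa using hp.1
    · simpa [Function.update_of_ne hi] using hp.2 i
  · intro p hp
    simp
  · intro p hp
    simp
  · intro p hp
    simp

section

variable {V A C : Type*} [Fintype V] [DecidableEq V] [DecidableEq A] [Fintype C]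

open Classical in
/-- number of completions of the partial assignment `f` on `U` that are bad for a constraint. -/
noncomputable def cnt {r : ℕ} (L : V → Finset A) (e : Fin r → V) (B : (Fin r → A) → Prop)
    (U : Finset V) (f : V → A) : ℝ :=
  ∑ H ∈ Fintype.piFinset (fun i => L (e i)), if B (fun i => if e i ∈ U then f (e i) else H i) then 1 else 0

theorem cnt_nonneg {r : ℕ} (L : V → Finset A) (e : Fin r → V) (B : (Fin r → A) → Prop)
    (U : Finset V) (f : V → A) : 0 ≤ cnt L e B U f := by
  classical
  unfold cnt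
  apply Finset.sum_nonneg
  intro H _
  split_ifs <;> norm_num

theorem cnt_update_of_notMem {r : ℕ} (L : V → Finset A) (e : Fin r → V) (B : (Fin r → A) → Prop)
    (U : Finset V) (f : V → A) (v : V) (hv : ∀ i, e i ≠ v) (h : A) :
    cnt L e B (insert v U) (Function.update f v h) = cnt L e B U f := by
  classical
  unfold cnt
  apply Finset.sum_congr rfl
  intro H _
  congr 2
  funext i
  have h1 : (e i ∈ insert v U) ↔ e i ∈ U := by
    rw [Finset.mem_insert]
    constructor
    · rintro (h | h)
      · exact absurd h (hv i)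
      · exact h
    · exact Or.inr
  simp only [h1, Function.update_of_ne (hv i)]

theorem cnt_sum {r : ℕ} (L : V → Finset A) (e : Fin r → V) (he : Function.Injective e)
    (B : (Fin r → A) → Prop) (U : Finset V) (f : V → A) (i₀ : Fin r) (hv : e i₀ ∉ U) :
    ∑ h ∈ L (e i₀), cnt L e B (insert (e i₀) U) (Function.update f (e i₀) h)
      = (L (e i₀)).card * cnt L e B U f := by
  classical
  unfold cnt
  rw [← resample (fun i => L (e i)) i₀]
  apply Finset.sum_congr rfl
  intro h _
  apply Finset.sum_congr rfl
  intro H _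
  congr 2
  funext i
  by_cases hi : i = i₀
  · subst hi
    simp [hv]
  · have h1 : e i ≠ e i₀ := fun h => hi (he h)
    have h2 : (e i ∈ insert (e i₀) U) ↔ e i ∈ U := by
      rw [Finset.mem_insert]
      constructor
      · rintro (h | h)
        · exact absurd h h1
        · exact h
      · exact Or.inr
    simp only [h2, Function.update_of_ne h1, Function.update_of_ne hi]

/-- The number of values in the range of constraint `c` lying in `U`. -/
def seen {r : ℕ} (e : Fin r → V) (U : Finset V) : ℕ := (Finset.univ.filter (fun i => e i ∈ U)).card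

theorem seen_insert_of_notMem {r : ℕ} (e : Fin r → V) (U : Finset V) (v : V) (hv : ∀ i, e i ≠ v) :
    seen e (insert v U) = seen e U := by
  unfold seen
  congr 1
  ext i
  simp [hv i]

theorem seen_insert {r : ℕ} (e : Fin r → V) (he : Function.Injective e) (U : Finset V) (i₀ : Fin r)
    (hv : e i₀ ∉ U) : seen e (insert (e i₀) U) = seen e U + 1 := by
  unfold seen
  have : Finset.univ.filter (fun i => e i ∈ insert (e i₀) U)
      = insert i₀ (Finset.univ.filter (fun i => e i ∈ U)) := by
    ext i
    simp only [Finset.mem_filter, Finset.mem_univ, true_and, Finset.mem_insert]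
    constructor
    · rintro (h | h)
      · exact Or.inl (he h)
      · exact Or.inr h
    · rintro (h | h)
      · exact Or.inl (by rw [h])
      · exact Or.inr h
  rw [this, Finset.card_insert_of_notMem]
  simp [hv]

/-- Markov step. -/
theorem markov_card {A : Type*} [DecidableEq A] (S : Finset A) (p : A → ℝ) (hp : ∀ a ∈ S, 0 ≤ p a) (P K : ℝ) (hK : 0 < K)
    (hP : 0 ≤ P) (hsum : ∑ a ∈ S, p a = S.card * P) :
    ((S.filter (fun a => K * P < p a)).card : ℝ) * K ≤ S.card := by
  classical
  rcases hP.eq_or_lt with hP0 | hP0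
  · subst hP0
    have h0 : ∀ a ∈ S, p a = 0 := by
      rw [mul_zero] at hsum
      exact (Finset.sum_eq_zero_iff_of_nonneg hp).1 hsum
    have : S.filter (fun a => K * 0 < p a) = ∅ := by
      apply Finset.filter_eq_empty_iff.2
      intro a ha
      rw [h0 a ha]
      simp
    rw [this]
    simp
  · have h1 : ((S.filter (fun a => K * P < p a)).card : ℝ) * (K * P) ≤ ∑ a ∈ S, p a := by
      calc ((S.filter (fun a => K * P < p a)).card : ℝ) * (K * P)
          = ∑ a ∈ S.filter (fun a => K * P < p a), (K * P) := by rw [Finset.sum_const, nsmul_eq_mul]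
        _ ≤ ∑ a ∈ S.filter (fun a => K * P < p a), p a := by
            apply Finset.sum_le_sum
            intro a ha
            exact (Finset.mem_filter.1 ha).2.le
        _ ≤ ∑ a ∈ S, p a := by
            apply Finset.sum_le_sum_of_subset_of_nonneg (Finset.filter_subset _ _)
            intro a ha _
            exact hp a ha
    rw [hsum] at h1
    have h2 : ((S.filter (fun a => K * P < p a)).card : ℝ) * K * P ≤ S.card * P := by
      calc _ = ((S.filter (fun a => K * P < p a)).card : ℝ) * (K * P) := by ring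
        _ ≤ _ := h1
    exact le_of_mul_le_mul_right h2 hP0

theorem cnt_empty {r : ℕ} (L : V → Finset A) (e : Fin r → V) (B : (Fin r → A) → Prop) [DecidablePred B]
    (f : V → A) : cnt L e B ∅ f = (((Fintype.piFinset (fun i => L (e i))).filter B).card : ℝ) := by
  classical
  unfold cnt
  rw [Finset.card_filter]
  push_cast
  apply Finset.sum_congr rfl
  intro H _
  simp

theorem cnt_univ {r : ℕ} (L : V → Finset A) (e : Fin r → V) (B : (Fin r → A) → Prop)
    (f : V → A) (hB : B (fun i => f (e i))) :
    cnt L e B Finset.univ f = ∏ i, ((L (e i)).card : ℝ) := by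
  classical
  unfold cnt
  simp [hB]

theorem seen_le {r : ℕ} (e : Fin r → V) (U : Finset V) : seen e U ≤ r := by
  unfold seen
  refine (Finset.card_le_univ _).trans ?_
  simp

open Classical in
/-- The greedy lemma. -/
theorem greedy (L : V → Finset A) (r : C → ℕ) (e : ∀ c, Fin (r c) → V)
    (he : ∀ c, Function.Injective (e c)) (B : ∀ c, (Fin (r c) → A) → Prop) (s Δ : ℕ) (θ : ℝ)
    (hΔ1 : 1 ≤ Δ) (hθ0 : 0 ≤ θ) (hθ : θ * (4 * (Δ : ℝ)) ^ s < 1) (hr : ∀ c, r c ≤ s)
    (hL : ∀ v, (L v).Nonempty)
    (hB : ∀ c, (((Fintype.piFinset (fun i => L (e c i))).filter (B c)).card : ℝ)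
      ≤ θ * ∏ i, ((L (e c i)).card : ℝ))
    (hΔ : ∀ v, (Finset.univ.filter (fun c => ∃ i, e c i = v)).card ≤ Δ)
    (Conf : V → V → Prop) (hsymm : ∀ u v, Conf u v → Conf v u)
    (hconf : ∀ v, 4 * (Finset.univ.filter (fun u => Conf v u)).card ≤ (L v).card) :
    ∃ f : V → A, (∀ v, f v ∈ L v) ∧ (∀ c, ¬ B c (fun i => f (e c i))) ∧
      ∀ v u, v ≠ u → Conf v u → f v ≠ f u := by
  have hΔr : (1 : ℝ) ≤ 4 * (Δ : ℝ) := by
    have : (1 : ℝ) ≤ (Δ : ℝ) := by exact_mod_cast hΔ1
    linarith
  have key : ∀ U : Finset V, ∃ f : V → A, (∀ v ∈ U, f v ∈ L v) ∧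
      (∀ v ∈ U, ∀ u ∈ U, v ≠ u → Conf v u → f v ≠ f u) ∧
      ∀ c, cnt L (e c) (B c) U f ≤
        (4 * (Δ : ℝ)) ^ (seen (e c) U) * (θ * ∏ i, ((L (e c i)).card : ℝ)) := by
    intro U
    induction U using Finset.induction_on with
    | empty =>
      refine ⟨fun v => (hL v).choose, by simp, by simp, ?_⟩
      intro c
      rw [cnt_empty]
      have : seen (e c) (∅ : Finset V) = 0 := by simp [seen]
      rw [this, pow_zero, one_mul]
      exact hB c
    | insert v U hvU ih =>
      obtain ⟨f, hf1, hf2, hf3⟩ := ih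
      let bad1 : Finset A := (Finset.univ.filter (fun u => Conf v u)).image f
      let cs : Finset C := Finset.univ.filter (fun c => ∃ i, e c i = v)
      let bd : C → Finset A := fun c => (L v).filter (fun h =>
        (4 * (Δ : ℝ)) * cnt L (e c) (B c) U f
          < cnt L (e c) (B c) (insert v U) (Function.update f v h))
      let bad2 : Finset A := cs.biUnion bd
      have hb1 : 4 * bad1.card ≤ (L v).card := by
        refine le_trans ?_ (hconf v)
        exact Nat.mul_le_mul_left _ Finset.card_image_le
      have hbd : ∀ c ∈ cs, ((bd c).card : ℝ) * (4 * (Δ : ℝ)) ≤ (L v).card := by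
        intro c hc
        obtain ⟨i₀, hi₀⟩ := (Finset.mem_filter.1 hc).2
        have hv' : e c i₀ ∉ U := by rw [hi₀]; exact hvU
        have h1 := cnt_sum L (e c) (he c) (B c) U f i₀ hv'
        rw [hi₀] at h1
        exact markov_card (L v) (fun h => cnt L (e c) (B c) (insert v U) (Function.update f v h))
          (fun a _ => cnt_nonneg _ _ _ _ _) (cnt L (e c) (B c) U f) (4 * (Δ : ℝ))
          (by linarith) (cnt_nonneg _ _ _ _ _) h1
      have hb2 : (bad2.card : ℝ) * 4 ≤ (L v).card := by
        have h1 : (bad2.card : ℝ) ≤ ∑ c ∈ cs, ((bd c).card : ℝ) := by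
          exact_mod_cast Finset.card_biUnion_le
        have h2 : (∑ c ∈ cs, ((bd c).card : ℝ)) * (4 * (Δ : ℝ)) ≤ (Δ : ℝ) * (L v).card := by
          rw [Finset.sum_mul]
          calc ∑ c ∈ cs, ((bd c).card : ℝ) * (4 * (Δ : ℝ)) ≤ ∑ c ∈ cs, ((L v).card : ℝ) :=
                Finset.sum_le_sum hbd
            _ = (cs.card : ℝ) * (L v).card := by rw [Finset.sum_const, nsmul_eq_mul]
            _ ≤ (Δ : ℝ) * (L v).card := by
                apply mul_le_mul_of_nonneg_right _ (Nat.cast_nonneg _)
                exact_mod_cast hΔ v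
        have hΔpos : (0 : ℝ) < (Δ : ℝ) := by
          have : (1 : ℝ) ≤ (Δ : ℝ) := by exact_mod_cast hΔ1
          linarith
        have h3 : ((bad2.card : ℝ) * 4) * (Δ : ℝ) ≤ ((L v).card : ℝ) * (Δ : ℝ) := by
          calc ((bad2.card : ℝ) * 4) * (Δ : ℝ) = (bad2.card : ℝ) * (4 * (Δ : ℝ)) := by ring
            _ ≤ (∑ c ∈ cs, ((bd c).card : ℝ)) * (4 * (Δ : ℝ)) := by
                apply mul_le_mul_of_nonneg_right h1; linarith
            _ ≤ (Δ : ℝ) * (L v).card := h2
            _ = _ := by ring
        exact le_of_mul_le_mul_right h3 hΔpos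
      have hLpos : 0 < (L v).card := Finset.card_pos.2 (hL v)
      have hlt : (bad1 ∪ bad2).card < (L v).card := by
        have h1 : (bad1 ∪ bad2).card ≤ bad1.card + bad2.card := Finset.card_union_le _ _
        have h2 : bad2.card * 4 ≤ (L v).card := by exact_mod_cast hb2
        omega
      obtain ⟨h, hhL, hhb⟩ : ∃ h ∈ L v, h ∉ bad1 ∪ bad2 := by
        by_contra hcon
        push Not at hcon
        have := Finset.card_le_card (show L v ⊆ bad1 ∪ bad2 from hcon)
        omega
      rw [Finset.mem_union, not_or] at hhb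
      obtain ⟨hh1, hh2⟩ := hhb
      have hne : ∀ u ∈ U, Conf v u → h ≠ f u := by
        intro u hu hc heq
        apply hh1
        rw [Finset.mem_image]
        exact ⟨u, by simp [hc], heq.symm⟩
      refine ⟨Function.update f v h, ?_, ?_, ?_⟩
      · intro u hu
        rw [Finset.mem_insert] at hu
        by_cases huv : u = v
        · subst huv; simpa using hhL
        · rw [Function.update_of_ne huv]
          exact hf1 u (hu.resolve_left huv)
      · intro u hu w hw huw hc
        rw [Finset.mem_insert] at hu hw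
        by_cases huv : u = v
        · subst huv
          have hwu : w ≠ u := fun h => huw h.symm
          rw [Function.update_self, Function.update_of_ne hwu]
          exact hne w (hw.resolve_left hwu) hc
        · by_cases hwv : w = v
          · subst hwv
            rw [Function.update_self, Function.update_of_ne huv]
            exact (hne u (hu.resolve_left huv) (hsymm _ _ hc)).symm
          · rw [Function.update_of_ne huv, Function.update_of_ne hwv]
            exact hf2 u (hu.resolve_left huv) w (hw.resolve_left hwv) huw hc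
      · intro c
        by_cases hc : ∃ i, e c i = v
        · obtain ⟨i₀, hi₀⟩ := hc
          have hcs : c ∈ cs := by
            simp only [cs, Finset.mem_filter, Finset.mem_univ, true_and]
            exact ⟨i₀, hi₀⟩
          have h1 : ¬ (4 * (Δ : ℝ)) * cnt L (e c) (B c) U f
              < cnt L (e c) (B c) (insert v U) (Function.update f v h) := by
            intro hlt
            apply hh2
            rw [Finset.mem_biUnion]
            exact ⟨c, hcs, Finset.mem_filter.2 ⟨hhL, hlt⟩⟩
          have h2 : seen (e c) (insert v U) = seen (e c) U + 1 := by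
            rw [← hi₀]
            exact seen_insert (e c) (he c) U i₀ (by rw [hi₀]; exact hvU)
          rw [h2]
          calc cnt L (e c) (B c) (insert v U) (Function.update f v h)
              ≤ (4 * (Δ : ℝ)) * cnt L (e c) (B c) U f := not_lt.1 h1
            _ ≤ (4 * (Δ : ℝ)) * ((4 * (Δ : ℝ)) ^ (seen (e c) U) * (θ * ∏ i, ((L (e c i)).card : ℝ))) := by
                apply mul_le_mul_of_nonneg_left (hf3 c); linarith
            _ = _ := by ring
        · push Not at hc
          rw [cnt_update_of_notMem L (e c) (B c) U f v hc h, seen_insert_of_notMem (e c) U v hc]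
          exact hf3 c
  obtain ⟨f, hf1, hf2, hf3⟩ := key Finset.univ
  refine ⟨f, fun v => hf1 v (Finset.mem_univ _), ?_, ?_⟩
  · intro c hBc
    have h1 := hf3 c
    rw [cnt_univ L (e c) (B c) f hBc] at h1
    have hprod : (0 : ℝ) < ∏ i, ((L (e c i)).card : ℝ) := by
      apply Finset.prod_pos
      intro i _
      exact_mod_cast Finset.card_pos.2 (hL _)
    have h2 : (4 * (Δ : ℝ)) ^ (seen (e c) Finset.univ) ≤ (4 * (Δ : ℝ)) ^ s :=
      pow_le_pow_right₀ hΔr ((seen_le _ _).trans (hr c))
    have h3 : (4 * (Δ : ℝ)) ^ (seen (e c) Finset.univ) * (θ * ∏ i, ((L (e c i)).card : ℝ))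
        ≤ (θ * (4 * (Δ : ℝ)) ^ s) * ∏ i, ((L (e c i)).card : ℝ) := by
      calc _ ≤ (4 * (Δ : ℝ)) ^ s * (θ * ∏ i, ((L (e c i)).card : ℝ)) := by
            apply mul_le_mul_of_nonneg_right h2
            exact mul_nonneg hθ0 hprod.le
        _ = _ := by ring
    have h4 : (θ * (4 * (Δ : ℝ)) ^ s) * ∏ i, ((L (e c i)).card : ℝ)
        < 1 * ∏ i, ((L (e c i)).card : ℝ) := mul_lt_mul_of_pos_right hθ hprod
    linarith
  · intro v u huv hc
    exact hf2 v (Finset.mem_univ _) u (Finset.mem_univ _) huv hc

end

end Pool.Agent.Helper91.SR
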