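import Pool.Agent.Helper91.SR.Lift
import Pool.Agent.Helper47.SizeRamsey.Paths

/-!
The grid graph as a subgraph of the point-cell incidence graph.
-/

set_option autoImplicit false
set_option linter.unusedSectionVars false
set_option linter.unusedVariables false

namespace Pool.Agent.Helper91.SR

open Finset Pool.Agent.Helper47.SizeRamsey

variable {d n : ℕ}

/-- Sum of the coordinates. -/
def sg (v : Fin d → Fin n) : ℕ := ∑ k, (v k : ℕ)

/-- Position of a grid vertex. -/
def ps (v : Fin d → Fin n) : Fin d → ℕ := fun k => sg v / 2 + (if (k : ℕ) = 0 then 0 else n - v k)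

theorem sg_succ {x y : Fin d → Fin n} {i : Fin d} (h1 : ∀ j, j ≠ i → x j = y j)
    (h2 : (x i : ℕ) + 1 = y i) : sg y = sg x + 1 := by
  unfold sg
  rw [← Finset.add_sum_erase _ _ (Finset.mem_univ i), ← Finset.add_sum_erase Finset.univ (fun k => (x k : ℕ)) (Finset.mem_univ i)]
  have : ∑ k ∈ Finset.univ.erase i, (y k : ℕ) = ∑ k ∈ Finset.univ.erase i, (x k : ℕ) := by
    apply Finset.sum_congr rfl
    intro k hk
    rw [h1 k (Finset.ne_of_mem_erase hk)]
  rw [this, ← h2]
  ring

theorem ps_face {x y : Fin d → Fin n} (h : (gridGraph d n).Adj x y) (hx : sg x % 2 = 1) :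
    sg y % 2 = 0 ∧ ps y ∈ face (ps x) Finset.univ := by
  obtain ⟨i, h1, h2 | h2⟩ := h
  · have hs := sg_succ h1 h2
    refine ⟨by omega, ?_⟩
    rw [mem_face]
    intro k
    have hh : sg y / 2 = sg x / 2 + 1 := by omega
    unfold ps
    rw [hh]
    by_cases hk0 : (k : ℕ) = 0
    · right; simp [hk0]
    · simp only [hk0, if_false]
      by_cases hki : k = i
      · subst hki
        left
        have := (y k).2
        omega
      · right
        rw [h1 k hki]
        exact ⟨Finset.mem_univ _, by omega⟩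
  · have hs := sg_succ (fun j hj => (h1 j hj).symm) h2
    refine ⟨by omega, ?_⟩
    rw [mem_face]
    intro k
    have hh : sg y / 2 = sg x / 2 := by omega
    unfold ps
    rw [hh]
    by_cases hk0 : (k : ℕ) = 0
    · left; simp [hk0]
    · simp only [hk0, if_false]
      by_cases hki : k = i
      · subst hki
        right
        have := (x k).2
        exact ⟨Finset.mem_univ _, by omega⟩
      · left
        rw [h1 k hki]

theorem parity_of_adj {x y : Fin d → Fin n} (h : (gridGraph d n).Adj x y) :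
    (sg x % 2 = 1 ∧ sg y % 2 = 0) ∨ (sg x % 2 = 0 ∧ sg y % 2 = 1) := by
  obtain ⟨i, h1, h2 | h2⟩ := h
  · have hs := sg_succ h1 h2; omega
  · have hs := sg_succ (fun j hj => (h1 j hj).symm) h2; omega

theorem sg_le (v : Fin d → Fin n) : sg v ≤ d * n := by
  unfold sg
  calc ∑ k, (v k : ℕ) ≤ ∑ k : Fin d, n := Finset.sum_le_sum (fun k _ => (v k).2.le)
    _ = d * n := by simp

theorem ps_lt (hn : 1 ≤ n) (v : Fin d → Fin n) (k : Fin d) : ps v k + 1 < (d + 2) * n := by
  have h1 := sg_le v
  have hd : 0 < d := lt_of_le_of_lt (Nat.zero_le _) k.2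
  have h2 : (d + 2) * n = d * n + n + n := by ring
  have h3 : n ≤ d * n := Nat.le_mul_of_pos_left n hd
  have hvk := (v k).2
  unfold ps
  by_cases hk0 : (k : ℕ) = 0
  · simp only [hk0, if_true]
    omega
  · simp only [hk0, if_false]
    -- strictness: d ≥ 2 here
    have hd2 : 2 ≤ d := by have := k.2; omega
    have h4 : 2 * n ≤ d * n := Nat.mul_le_mul_right n hd2
    omega

theorem ps_inj (hd : 1 ≤ d) {v w : Fin d → Fin n} (h : ps v = ps w) (hp : sg v % 2 = sg w % 2) : v = w := by
  have h0 := congrFun h ⟨0, hd⟩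
  simp only [ps, if_true] at h0
  have hs : sg v = sg w := by omega
  have hk : ∀ k : Fin d, (k : ℕ) ≠ 0 → v k = w k := by
    intro k hk0
    have h1 := congrFun h k
    simp only [ps, hk0, if_false, hs] at h1
    have h2 := (v k).2
    have h3 := (w k).2
    apply Fin.ext
    omega
  have hv0 : v ⟨0, hd⟩ = w ⟨0, hd⟩ := by
    unfold sg at hs
    rw [← Finset.add_sum_erase _ _ (Finset.mem_univ (⟨0, hd⟩ : Fin d)),
      ← Finset.add_sum_erase Finset.univ (fun k => (w k : ℕ)) (Finset.mem_univ (⟨0, hd⟩ : Fin d))] at hs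
    have h2 : ∑ k ∈ Finset.univ.erase (⟨0, hd⟩ : Fin d), (v k : ℕ)
        = ∑ k ∈ Finset.univ.erase (⟨0, hd⟩ : Fin d), (w k : ℕ) := by
      apply Finset.sum_congr rfl
      intro k hk'
      have h3 := Finset.ne_of_mem_erase hk'
      rw [hk k (fun h => h3 (Fin.ext h))]
    rw [h2] at hs
    apply Fin.ext
    omega
  funext k
  by_cases hk0 : (k : ℕ) = 0
  · have : k = ⟨0, hd⟩ := Fin.ext hk0
    rw [this]; exact hv0
  · exact hk k hk0

end Pool.Agent.Helper91.SR
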