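import Mathlib

/-!
Flats of a finite vector space with Vandermonde directions.
-/

set_option autoImplicit false
set_option linter.unusedSectionVars false
set_option linter.unusedVariables false

namespace Pool.Agent.Helper91.SR

open Finset

variable {D J p : ℕ} [Fact p.Prime]

/-- Direction vectors on the moment curve. -/
def dir (D p : ℕ) {J : ℕ} (a : Fin J) : Fin D → ZMod p := fun i => ((a : ℕ) : ZMod p) ^ (i : ℕ)

open Classical in
/-- The flat through `x` with directions `K`. -/
noncomputable def flat (K : Finset (Fin J)) (x : Fin D → ZMod p) : Finset (Fin D → ZMod p) :=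
  Finset.univ.filter (fun y => ∃ t : Fin J → ZMod p, y = x + ∑ a ∈ K, t a • dir D p a)

theorem mem_flat {K : Finset (Fin J)} {x y : Fin D → ZMod p} :
    y ∈ flat K x ↔ ∃ t : Fin J → ZMod p, y = x + ∑ a ∈ K, t a • dir D p a := by
  classical
  simp [flat]

theorem self_mem_flat (K : Finset (Fin J)) (x : Fin D → ZMod p) : x ∈ flat K x := by
  rw [mem_flat]
  exact ⟨0, by simp⟩

theorem flat_eq {K : Finset (Fin J)} {x y : Fin D → ZMod p} (h : y ∈ flat K x) : flat K y = flat K x := by
  obtain ⟨t, rfl⟩ := mem_flat.1 h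
  ext z
  rw [mem_flat, mem_flat]
  constructor
  · rintro ⟨u, rfl⟩
    refine ⟨t + u, ?_⟩
    simp only [Pi.add_apply, add_smul, Finset.sum_add_distrib]
    rw [add_assoc]
  · rintro ⟨u, rfl⟩
    refine ⟨u - t, ?_⟩
    simp only [Pi.sub_apply, sub_smul, Finset.sum_sub_distrib]
    abel

theorem card_flat_le (K : Finset (Fin J)) (x : Fin D → ZMod p) : (flat K x).card ≤ p ^ K.card := by
  classical
  have h1 : flat K x ⊆ (Fintype.piFinset (fun a => if a ∈ K then (Finset.univ : Finset (ZMod p)) else {0})).image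
      (fun t : Fin J → ZMod p => x + ∑ a ∈ K, t a • dir D p a) := by
    intro y hy
    obtain ⟨t, rfl⟩ := mem_flat.1 hy
    rw [Finset.mem_image]
    refine ⟨fun a => if a ∈ K then t a else 0, ?_, ?_⟩
    · rw [Fintype.mem_piFinset]
      intro a
      by_cases ha : a ∈ K
      · simp [ha]
      · simp [ha]
    · congr 1
      apply Finset.sum_congr rfl
      intro a ha
      simp [ha]
  refine (Finset.card_le_card h1).trans (Finset.card_image_le.trans ?_)
  rw [Fintype.card_piFinset]
  have h2 : ∀ a : Fin J, (if a ∈ K then (Finset.univ : Finset (ZMod p)) else {0}).card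
      = if a ∈ K then p else 1 := by
    intro a
    split_ifs
    · rw [Finset.card_univ, ZMod.card]
    · simp
  rw [Finset.prod_congr rfl (fun a _ => h2 a)]
  rw [Finset.prod_ite]
  simp

/-- Coordinates. -/
def crd (I : Fin D ↪ Fin J) (c : Fin D → ZMod p) : Fin D → ZMod p := ∑ i, c i • dir D p (I i)

theorem crd_injective (hJ : J ≤ p) (I : Fin D ↪ Fin J) :
    Function.Injective (crd I : (Fin D → ZMod p) → (Fin D → ZMod p)) := by
  have hv : Function.Injective (fun i : Fin D => (((I i : Fin J) : ℕ) : ZMod p)) := by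
    intro i j h
    simp only at h
    rw [ZMod.natCast_eq_natCast_iff'] at h
    rw [Nat.mod_eq_of_lt (lt_of_lt_of_le (I i).2 hJ), Nat.mod_eq_of_lt (lt_of_lt_of_le (I j).2 hJ)] at h
    exact I.injective (Fin.ext h)
  have hdet : (Matrix.vandermonde (fun i : Fin D => (((I i : Fin J) : ℕ) : ZMod p))).det ≠ 0 :=
    Matrix.det_vandermonde_ne_zero_iff.2 hv
  intro c c' h
  have h1 : Matrix.vecMul (c - c') (Matrix.vandermonde (fun i : Fin D => (((I i : Fin J) : ℕ) : ZMod p))) = 0 := by
    funext j
    have h2 := congrFun h j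
    simp only [crd, Finset.sum_apply, Pi.smul_apply, smul_eq_mul, dir] at h2
    simp only [Matrix.vecMul, dotProduct, Matrix.vandermonde_apply, Pi.sub_apply, Pi.zero_apply, sub_mul,
      Finset.sum_sub_distrib]
    rw [h2, sub_self]
  have h3 := Matrix.eq_zero_of_vecMul_eq_zero hdet h1
  exact sub_eq_zero.1 h3

theorem crd_agree (I : Fin D ↪ Fin J) (K : Finset (Fin D)) (c c' : Fin D → ZMod p)
    (h : ∀ i, i ∉ K → c i = c' i) : crd I c' ∈ flat (K.map I) (crd I c) := by
  classical
  rw [mem_flat]
  refine ⟨Function.extend I (c' - c) 0, ?_⟩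
  rw [Finset.sum_map]
  have h1 : ∀ i, Function.extend I (c' - c) 0 (I i) = c' i - c i := by
    intro i
    rw [I.injective.extend_apply]
    rfl
  simp only [h1]
  unfold crd
  rw [← Finset.sum_add_sum_compl K (fun i => c' i • dir D p (I i)),
    ← Finset.sum_add_sum_compl K (fun i => c i • dir D p (I i))]
  have h2 : ∑ i ∈ Kᶜ, c' i • dir D p (I i) = ∑ i ∈ Kᶜ, c i • dir D p (I i) := by
    apply Finset.sum_congr rfl
    intro i hi
    rw [h i (Finset.mem_compl.1 hi)]
  rw [h2]
  simp only [sub_smul, Finset.sum_sub_distrib]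
  abel

end Pool.Agent.Helper91.SR
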