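import Pool.Agent.Helper91.SR.Good
import Pool.Agent.Helper91.SR.Arith

/-!
Lifting: from maps on a box of side `n` to maps on a box of side `n * (M+1)`.
-/

set_option autoImplicit false
set_option linter.unusedSectionVars false
set_option linter.unusedVariables false

namespace Pool.Agent.Helper91.SR

open Finset

variable {d : ℕ}

/-- Face of the integer grid with lowest corner `a` and set of directions `S`. -/
def face (a : Fin d → ℕ) (S : Finset (Fin d)) : Finset (Fin d → ℕ) :=
  Fintype.piFinset (fun k => if k ∈ S then {a k, a k + 1} else {a k})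

theorem mem_face {a : Fin d → ℕ} {S : Finset (Fin d)} {u : Fin d → ℕ} :
    u ∈ face a S ↔ ∀ k, u k = a k ∨ (k ∈ S ∧ u k = a k + 1) := by
  unfold face
  rw [Fintype.mem_piFinset]
  apply forall_congr'
  intro k
  by_cases h : k ∈ S
  · simp [h]
  · simp [h]

theorem card_face_le (a : Fin d → ℕ) (S : Finset (Fin d)) : (face a S).card ≤ 2 ^ d := by
  unfold face
  rw [Fintype.card_piFinset]
  calc ∏ k : Fin d, (if k ∈ S then ({a k, a k + 1} : Finset ℕ) else {a k}).card
      ≤ ∏ k : Fin d, 2 := by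
        apply Finset.prod_le_prod'
        intro k _
        split_ifs
        · exact Finset.card_le_two
        · simp
    _ = 2 ^ d := by simp

theorem self_mem_face (a : Fin d → ℕ) (S : Finset (Fin d)) : a ∈ face a S :=
  mem_face.2 (fun k => Or.inl rfl)

/-- The face lies in the box of side `n`. -/
def InBox (n : ℕ) (a : Fin d → ℕ) (S : Finset (Fin d)) : Prop :=
  ∀ k, a k < n ∧ (k ∈ S → a k + 1 < n)

variable {A : Type*} [Fintype A] [DecidableEq A] {D : ℕ}

/-- A stage of the construction. -/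
structure Stage (X : Finset (Fin D → A)) (FG : Finset (Fin D → A) → Prop) (s : ℕ) (β η : ℕ → ℝ)
    (b : Fin D → A) (n t : ℕ) (F : (Fin d → ℕ) → (Fin D → A)) : Prop where
  low : ∀ u (i : Fin D), (i : ℕ) < t → F u i = b i
  inj : ∀ u v : Fin d → ℕ, (∀ k, u k < n) → (∀ k, v k < n) → F u = F v → u = v
  gd : ∀ a S, InBox n a S → good X FG s β η t ((face a S).image F)
  dim : ∀ a S, InBox n a S → ∃ Y : Finset (Fin D), Y.card ≤ S.card ∧
    ∀ x ∈ face a S, ∀ y ∈ face a S, ∀ i, i ∉ Y → F x i = F y i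

theorem stage_zero (X : Finset (Fin D → A)) (FG : Finset (Fin D → A) → Prop) (s : ℕ) (β η : ℕ → ℝ)
    (b : Fin D → A) (h : good X FG s β η D {b}) :
    Stage (d := d) X FG s β η b 1 D (fun _ => b) where
  low := fun u i _ => rfl
  inj := by
    intro u v hu hv _
    funext k
    have := hu k
    have := hv k
    omega
  gd := by
    intro a S _
    have : (face a S).image (fun _ => b) = {b} := by
      ext y
      rw [Finset.mem_image, Finset.mem_singleton]
      constructor
      · rintro ⟨_, _, rfl⟩; rfl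
      · rintro rfl
        exact ⟨a, self_mem_face a S, rfl⟩
    rw [this]
    exact h
  dim := by
    intro a S _
    exact ⟨∅, by simp, fun _ _ _ _ _ _ => rfl⟩

/-- Coordinatewise `cp`. -/
def cpF (M : ℕ) (u : Fin d → ℕ) : Fin d → ℕ := fun k => cp M (u k)

/-- Coordinatewise division. -/
def dvF (M : ℕ) (u : Fin d → ℕ) : Fin d → ℕ := fun k => u k / (M+1)

/-- Directions crossing coarsely. -/
def Sc (M : ℕ) (a : Fin d → ℕ) (S : Finset (Fin d)) : Finset (Fin d) :=
  S.filter (fun k => a k % (M+1) = M)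

/-- Directions not crossing coarsely. -/
def Si (M : ℕ) (a : Fin d → ℕ) (S : Finset (Fin d)) : Finset (Fin d) :=
  S.filter (fun k => ¬ a k % (M+1) = M)

theorem mem_Sc {M : ℕ} {a : Fin d → ℕ} {S : Finset (Fin d)} {k : Fin d} :
    k ∈ Sc M a S ↔ k ∈ S ∧ a k % (M+1) = M := by simp [Sc]

theorem mem_Si {M : ℕ} {a : Fin d → ℕ} {S : Finset (Fin d)} {k : Fin d} :
    k ∈ Si M a S ↔ k ∈ S ∧ ¬ a k % (M+1) = M := by simp [Si]

theorem face_down {M : ℕ} {a : Fin d → ℕ} {S : Finset (Fin d)} {u : Fin d → ℕ} (hu : u ∈ face a S) :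
    dvF M u ∈ face (dvF M a) (Sc M a S) ∧ cpF M u ∈ face (cpF M a) (Si M a S) := by
  rw [mem_face] at hu
  constructor
  · rw [mem_face]
    intro k
    rcases hu k with h | ⟨hk, h⟩
    · left; simp [dvF, h]
    · by_cases hm : a k % (M+1) = M
      · right
        refine ⟨mem_Sc.2 ⟨hk, hm⟩, ?_⟩
        simp only [dvF, h]
        exact succ_div_of_eq hm
      · left
        simp only [dvF, h]
        exact succ_div_of_ne hm
  · rw [mem_face]
    intro k
    rcases hu k with h | ⟨hk, h⟩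
    · left; simp [cpF, h]
    · by_cases hm : a k % (M+1) = M
      · left
        simp only [cpF, h]
        exact cp_succ_of_eq hm
      · right
        refine ⟨mem_Si.2 ⟨hk, hm⟩, ?_⟩
        simp only [cpF, h]
        exact cp_succ_of_ne hm

theorem face_up {M : ℕ} {a : Fin d → ℕ} {S : Finset (Fin d)} {x w : Fin d → ℕ}
    (hx : x ∈ face (dvF M a) (Sc M a S)) (hw : w ∈ face (cpF M a) (Si M a S)) :
    ∃ u ∈ face a S, dvF M u = x ∧ cpF M u = w := by
  rw [mem_face] at hx hw
  have key : ∀ k, ∃ v : ℕ, (v = a k ∨ (k ∈ S ∧ v = a k + 1)) ∧ v / (M+1) = x k ∧ cp M v = w k := by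
    intro k
    rcases hx k with h1 | ⟨h1, h1'⟩
    · rcases hw k with h2 | ⟨h2, h2'⟩
      · exact ⟨a k, Or.inl rfl, h1.symm, h2.symm⟩
      · rw [mem_Si] at h2
        refine ⟨a k + 1, Or.inr ⟨h2.1, rfl⟩, ?_, ?_⟩
        · rw [succ_div_of_ne h2.2, h1]; rfl
        · rw [cp_succ_of_ne h2.2, h2']; rfl
    · rw [mem_Sc] at h1
      rcases hw k with h2 | ⟨h2, h2'⟩
      · refine ⟨a k + 1, Or.inr ⟨h1.1, rfl⟩, ?_, ?_⟩
        · rw [succ_div_of_eq h1.2, h1']; rfl
        · rw [cp_succ_of_eq h1.2, h2]; rfl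
      · rw [mem_Si] at h2
        exact absurd h1.2 h2.2
  choose v hv1 hv2 hv3 using key
  exact ⟨v, mem_face.2 hv1, funext hv2, funext hv3⟩

theorem inBox_down {M n : ℕ} {a : Fin d → ℕ} {S : Finset (Fin d)} (h : InBox (n * (M+1)) a S) :
    InBox n (dvF M a) (Sc M a S) := by
  intro k
  refine ⟨div_lt_box (h k).1, ?_⟩
  intro hk
  rw [mem_Sc] at hk
  have h1 := (h k).2 hk.1
  have h2 := div_lt_box h1
  rw [succ_div_of_eq hk.2] at h2
  exact h2

theorem face_cp_le {M n : ℕ} {a : Fin d → ℕ} {S : Finset (Fin d)} (h : InBox (n * (M+1)) a S)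
    {w : Fin d → ℕ} (hw : w ∈ face (cpF M a) (Si M a S)) (k : Fin d) : w k ≤ n * M := by
  rw [mem_face] at hw
  rcases hw k with h1 | ⟨h1, h1'⟩
  · rw [h1]; exact cp_le M n _ (h k).1
  · rw [mem_Si] at h1
    have h2 : w k = cp M (a k + 1) := by rw [cp_succ_of_ne h1.2, h1']; rfl
    rw [h2]
    exact cp_le M n _ ((h k).2 h1.1)

/-- Low corner of the coarse face attached to a fine position. -/
def loF (M : ℕ) (w : Fin d → ℕ) : Fin d → ℕ := fun k => lo M (w k)

/-- Directions of the coarse face attached to a fine position. -/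
def crS (M n : ℕ) (w : Fin d → ℕ) : Finset (Fin d) := Finset.univ.filter (fun k => Cross M n (w k))

theorem inBox_lo {M n : ℕ} (hM : 1 ≤ M) (hn : 1 ≤ n) {w : Fin d → ℕ} (hw : ∀ k, w k ≤ n * M) :
    InBox n (loF M w) (crS M n w) := by
  intro k
  refine ⟨lo_lt hM hn (hw k), ?_⟩
  intro hk
  simp only [crS, Finset.mem_filter, Finset.mem_univ, true_and] at hk
  exact (lo_cross hM hk).1

theorem face_contain {M n : ℕ} (hM : 1 ≤ M) {a : Fin d → ℕ} {S : Finset (Fin d)}
    (h : InBox (n * (M+1)) a S) {w : Fin d → ℕ} (hw : w ∈ face (cpF M a) (Si M a S)) :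
    face (dvF M a) (Sc M a S) ⊆ face (loF M w) (crS M n w) := by
  intro x hx
  rw [mem_face] at hx hw ⊢
  intro k
  have hcr : k ∈ crS M n w ↔ Cross M n (w k) := by simp [crS]
  rw [hcr]
  by_cases hk : k ∈ Sc M a S
  · rw [mem_Sc] at hk
    have hwk : w k = cp M (a k) := by
      rcases hw k with h1 | ⟨h1, _⟩
      · exact h1
      · rw [mem_Si] at h1; exact absurd hk.2 h1.2
    have hc := contain_cross hM ((h k).2 hk.1) hk.2
    simp only [loF, hwk, hc.2]
    rcases hx k with h1 | ⟨_, h1⟩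
    · left; exact h1
    · right; exact ⟨hc.1, h1⟩
  · have hxk : x k = a k / (M+1) := by
      rcases hx k with h1 | ⟨h1, _⟩
      · exact h1
      · exact absurd h1 hk
    have hτ : a k / (M+1) < n := div_lt_box (h k).1
    have hwk : ∃ ρ, ρ ≤ M ∧ w k = M * (a k / (M+1)) + ρ := by
      rcases hw k with h1 | ⟨h1, h1'⟩
      · exact ⟨a k % (M+1), mod_le M _, by rw [h1]; exact cp_eq M (a k)⟩
      · rw [mem_Si] at h1
        refine ⟨a k % (M+1) + 1, ?_, ?_⟩
        · have := mod_le M (a k)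
          exact Nat.succ_le_of_lt (lt_of_le_of_ne this h1.2)
        · rw [h1']
          show cp M (a k) + 1 = _
          rw [cp_eq]
          ring
    obtain ⟨ρ, hρ, hwρ⟩ := hwk
    rw [hxk]
    simp only [loF, hwρ]
    exact contain_other hM hτ hρ

end Pool.Agent.Helper91.SR
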