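import Pool.Agent.Helper91.SR.Abstract
import Pool.Agent.Helper91.SR.Ramsey
import Pool.Agent.Helper91.SR.Host
import Pool.Agent.Helper91.SR.Grid

/-!
The host graph arrows the grid graph.
-/

set_option autoImplicit false
set_option linter.unusedSectionVars false
set_option linter.unusedVariables false

namespace Pool.Agent.Helper91.SR

open Finset Pool.Agent.Helper47.SizeRamsey

/-- Vertices of the host graph. -/
abbrev HV (D J p W : ℕ) : Type :=
  (Fin D → ZMod p) ⊕ (Finset (Fin J) × Finset (Fin D → ZMod p) × Fin W)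

/-- Incidence of a point and an extra vertex. -/
def Inc {D J p W : ℕ} [Fact p.Prime] (d : ℕ) (x : Fin D → ZMod p)
    (y : Finset (Fin J) × Finset (Fin D → ZMod p) × Fin W) : Prop :=
  y.1.card = d ∧ y.2.1 = flat y.1 x

/-- The host graph. -/
def host (d D J p W : ℕ) [Fact p.Prime] : SimpleGraph (HV D J p W) where
  Adj u v := match u, v with
    | Sum.inl x, Sum.inr y => Inc d x y
    | Sum.inr y, Sum.inl x => Inc d x y
    | Sum.inl _, Sum.inl _ => False
    | Sum.inr _, Sum.inr _ => False
  symm := ⟨by
    rintro (x | y) (x' | y') h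
    · exact h
    · exact h
    · exact h
    · exact h⟩
  loopless := ⟨by
    rintro (x | y) h
    · exact h
    · exact h⟩

theorem host_edges (d D J p W : ℕ) [Fact p.Prime] :
    (host d D J p W).edgeSet.ncard ≤ p ^ D * (2 ^ J * W) := by
  classical
  let f : (Fin D → ZMod p) × Finset (Fin J) × Fin W → Sym2 (HV D J p W) :=
    fun t => s(Sum.inl t.1, Sum.inr (t.2.1, flat t.2.1 t.1, t.2.2))
  have h1 : (host d D J p W).edgeSet ⊆ ((Finset.univ.image f : Finset (Sym2 (HV D J p W))) : Set _) := by
    intro e he
    induction e using Sym2.ind with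
    | _ u v =>
      rw [SimpleGraph.mem_edgeSet] at he
      rw [Finset.mem_coe, Finset.mem_image]
      rcases u with x | ⟨K, S, z⟩ <;> rcases v with x' | ⟨K', S', z'⟩
      · exact absurd he (fun h => h)
      · obtain ⟨_, h2⟩ : Inc d x (K', S', z') := he
        simp only at h2
        exact ⟨(x, K', z'), Finset.mem_univ _, by simp only [f, h2]⟩
      · obtain ⟨_, h2⟩ : Inc d x' (K, S, z) := he
        simp only at h2
        refine ⟨(x', K, z), Finset.mem_univ _, ?_⟩
        simp only [f, h2]
        exact Sym2.eq_swap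
      · exact absurd he (fun h => h)
  calc (host d D J p W).edgeSet.ncard
      ≤ ((Finset.univ.image f : Finset (Sym2 (HV D J p W))) : Set _).ncard :=
        Set.ncard_le_ncard h1 (Finset.finite_toSet _)
    _ = (Finset.univ.image f).card := Set.ncard_coe_finset _
    _ ≤ (Finset.univ : Finset ((Fin D → ZMod p) × Finset (Fin J) × Fin W)).card := Finset.card_image_le
    _ = p ^ D * (2 ^ J * W) := by
        rw [Finset.card_univ, Fintype.card_prod, Fintype.card_prod, Fintype.card_fun, Fintype.card_finset,
          Fintype.card_fin, Fintype.card_fin, Fintype.card_fin, ZMod.card]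

/-- Cells of the box of side `N`. -/
abbrev Cell (d N : ℕ) : Type := {a : Fin d → Fin N // ∀ k, (a k : ℕ) + 1 < N}

/-- Two cells are assigned to the same flat. -/
def SameFlat {D J p : ℕ} [Fact p.Prime] (K K' : Finset (Fin J)) (x x' : Fin D → ZMod p) : Prop :=
  K = K' ∧ flat K x = flat K' x'

open Classical in
/-- Finding the monochromatic copy, given the embedding of points. -/
theorem find_copy (d D J p W n N : ℕ) [Fact p.Prime] (hd : 1 ≤ d) (hn : 1 ≤ n)
    (hN : (d + 2) * n ≤ N) (χ : Sym2 (HV D J p W) → Bool) (b₀ : Bool)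
    (pt : (Fin d → ℕ) → (Fin D → ZMod p))
    (hinj : ∀ u v : Fin d → ℕ, (∀ k, u k < N) → (∀ k, v k < N) → pt u = pt v → u = v)
    (hcell : ∀ a : Fin d → ℕ, (∀ k, a k + 1 < N) → ∃ K : Finset (Fin J), K.card = d ∧
      (∀ x ∈ face a Finset.univ, flat K (pt x) = flat K (pt a)) ∧
      4 * p ^ d ≤ (Finset.univ.filter (fun z : Fin W => ∀ x ∈ face a Finset.univ,
        χ s(Sum.inl (pt x), Sum.inr (K, flat K (pt a), z)) = b₀)).card) :
    ∃ f : (Fin d → Fin n) → HV D J p W, Function.Injective f ∧
      ∀ x y, (gridGraph d n).Adj x y → (host d D J p W).Adj (f x) (f y) ∧ χ s(f x, f y) = b₀ := by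
  -- choose the flats
  have hcell' : ∀ a : Cell d N, ∃ K : Finset (Fin J), K.card = d ∧
      (∀ x ∈ face (toN a.1) Finset.univ, flat K (pt x) = flat K (pt (toN a.1))) ∧
      4 * p ^ d ≤ (Finset.univ.filter (fun z : Fin W => ∀ x ∈ face (toN a.1) Finset.univ,
        χ s(Sum.inl (pt x), Sum.inr (K, flat K (pt (toN a.1)), z)) = b₀)).card :=
    fun a => hcell _ a.2
  choose K hK1 hK2 hK3 using hcell'
  have hp : 0 < p := (Fact.out : p.Prime).pos
  obtain ⟨z, hz1, _, hz3⟩ := greedy (V := Cell d N) (A := Fin W) (C := Empty)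
    (fun a => Finset.univ.filter (fun z : Fin W => ∀ x ∈ face (toN a.1) Finset.univ,
        χ s(Sum.inl (pt x), Sum.inr (K a, flat (K a) (pt (toN a.1)), z)) = b₀))
    (fun c => c.elim) (fun c => c.elim) (fun c => c.elim) (fun c => c.elim) 0 1 0 le_rfl le_rfl
    (by simp) (fun c => c.elim)
    (by
      intro a
      rw [← Finset.card_pos]
      exact lt_of_lt_of_le (by positivity) (hK3 a))
    (fun c => c.elim) (by intro v; simp)
    (fun a a' => SameFlat (K a) (K a') (pt (toN a.1)) (pt (toN a'.1)))
    (fun u v h => ⟨h.1.symm, h.2.symm⟩)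
    (by
      intro a
      refine le_trans ?_ (hK3 a)
      apply Nat.mul_le_mul_left
      refine le_trans ?_ (le_of_le_of_eq (card_flat_le (K a) (pt (toN a.1))) (by rw [hK1 a]))
      apply Finset.card_le_card_of_injOn (fun a' => pt (toN a'.1))
      · intro a' ha'
        have h := (Finset.mem_filter.1 ha').2
        rw [Finset.mem_coe, h.2]
        exact self_mem_flat _ _
      · intro a' _ a'' _ h
        apply Subtype.ext
        apply toN_inj
        exact hinj _ _ (fun k => (a'.1 k).2) (fun k => (a''.1 k).2) h)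
  -- the cell of a grid vertex
  have hlt : ∀ (v : Fin d → Fin n) (k : Fin d), ps v k + 1 < N := fun v k =>
    lt_of_lt_of_le (ps_lt hn v k) hN
  let cl : (Fin d → Fin n) → Cell d N := fun v =>
    ⟨fun k => ⟨ps v k, by have := hlt v k; omega⟩, fun k => hlt v k⟩
  have hcl : ∀ v, toN (cl v).1 = ps v := fun v => rfl
  let f : (Fin d → Fin n) → HV D J p W := fun v =>
    if sg v % 2 = 0 then Sum.inl (pt (ps v))
    else Sum.inr (K (cl v), flat (K (cl v)) (pt (ps v)), z (cl v))
  have key : ∀ x y, (gridGraph d n).Adj x y → sg x % 2 = 1 →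
      (host d D J p W).Adj (f x) (f y) ∧ χ s(f x, f y) = b₀ := by
    intro x y hxy hx
    obtain ⟨hy, hface⟩ := ps_face hxy hx
    have hfx : f x = Sum.inr (K (cl x), flat (K (cl x)) (pt (ps x)), z (cl x)) := by
      simp only [f]
      rw [if_neg (by omega)]
    have hfy : f y = Sum.inl (pt (ps y)) := by
      simp only [f]
      rw [if_pos hy]
    rw [hfx, hfy]
    constructor
    · show Inc d (pt (ps y)) (K (cl x), flat (K (cl x)) (pt (ps x)), z (cl x))
      refine ⟨hK1 _, ?_⟩
      have := hK2 (cl x) (ps y) hface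
      rw [hcl] at this
      exact this.symm
    · have := (Finset.mem_filter.1 (hz1 (cl x))).2 (ps y) hface
      rw [hcl] at this
      rw [Sym2.eq_swap]
      exact this
  refine ⟨f, ?_, ?_⟩
  · intro v w hvw
    by_cases hv : sg v % 2 = 0
    · by_cases hw : sg w % 2 = 0
      · simp only [f] at hvw
        rw [if_pos hv, if_pos hw] at hvw
        have h1 := Sum.inl_injective hvw
        have h2 := hinj _ _ (fun k => by have := hlt v k; omega) (fun k => by have := hlt w k; omega) h1
        exact ps_inj hd h2 (by rw [hv, hw])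
      · simp only [f] at hvw
        rw [if_pos hv, if_neg hw] at hvw
        cases hvw
    · by_cases hw : sg w % 2 = 0
      · simp only [f] at hvw
        rw [if_neg hv, if_pos hw] at hvw
        cases hvw
      · simp only [f] at hvw
        rw [if_neg hv, if_neg hw] at hvw
        have h1 := Sum.inr_injective hvw
        simp only [Prod.mk.injEq] at h1
        obtain ⟨h1, h2, h3⟩ := h1
        have h4 : cl v = cl w := by
          by_contra hne
          exact hz3 (cl v) (cl w) hne ⟨h1, h2⟩ h3
        have h5 : ps v = ps w := by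
          rw [← hcl v, h4, hcl w]
        exact ps_inj hd h5 (by omega)
  · intro x y hxy
    rcases parity_of_adj hxy with ⟨hx, _⟩ | ⟨_, hy⟩
    · exact key x y hxy hx
    · have := key y x hxy.symm hy
      refine ⟨this.1.symm, ?_⟩
      rw [Sym2.eq_swap]
      exact this.2

end Pool.Agent.Helper91.SR
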