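import Pool.Agent.Helper91.SR.Lift

/-!
The lifting step.
-/

set_option autoImplicit false
set_option linter.unusedSectionVars false
set_option linter.unusedVariables false

namespace Pool.Agent.Helper91.SR

open Finset

variable {d : ℕ} {A : Type*} [Fintype A] [DecidableEq A] {D : ℕ}

theorem nb_anti {X : Finset (Fin D → A)} {t : ℕ} {T T' : Finset (Fin D → A)} (h : T ⊆ T') :
    nb X t T' ⊆ nb X t T := by
  intro a ha
  rw [mem_nb] at ha ⊢
  exact fun x hx => ha x (h hx)

/-- Fine positions, as a finite type. -/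
abbrev Pos (d M n : ℕ) : Type := Fin d → Fin (n * M + 1)

/-- underlying vector of naturals -/
def toN {d N : ℕ} (w : Fin d → Fin N) : Fin d → ℕ := fun k => (w k : ℕ)

theorem toN_inj {d N : ℕ} {w w' : Fin d → Fin N} (h : toN w = toN w') : w = w' := by
  funext k
  exact Fin.ext (congrFun h k)

/-- Reading back. -/
def ofN (d M n : ℕ) (w : Fin d → ℕ) : Pos d M n := fun k => Fin.ofNat (n * M + 1) (w k)

theorem toN_ofN {M n : ℕ} {w : Fin d → ℕ} (h : ∀ k, w k ≤ n * M) : toN (ofN d M n w) = w := by
  funext k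
  simp only [toN, ofN, Fin.val_ofNat]
  exact Nat.mod_eq_of_lt (by have := h k; omega)

theorem ofN_toN {M n : ℕ} (w : Pos d M n) : ofN d M n (toN w) = w := by
  apply toN_inj
  apply toN_ofN
  intro k
  have := (w k).2
  simp only [toN]
  omega

theorem toN_le {M n : ℕ} (w : Pos d M n) (k : Fin d) : toN w k ≤ n * M := by
  have := (w k).2
  simp only [toN]
  omega

/-- Constraints: faces of the fine box. -/
abbrev Cst (d M n : ℕ) : Type :=
  {c : (Fin d → Fin (n * (M+1))) × Finset (Fin d) // ∀ k ∈ c.2, (c.1 k : ℕ) + 1 < n * (M+1)}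

theorem inBox_cst {M n : ℕ} (c : Cst d M n) : InBox (n * (M+1)) (toN c.1.1) c.1.2 := by
  intro k
  exact ⟨(c.1.1 k).2, fun hk => c.2 k hk⟩

/-- Positions used by a constraint. -/
def Rset (M n : ℕ) (a : Fin d → ℕ) (S : Finset (Fin d)) : Finset (Pos d M n) :=
  Finset.univ.filter (fun w => toN w ∈ face (cpF M a) (Si M a S))

theorem mem_Rset {M n : ℕ} {a : Fin d → ℕ} {S : Finset (Fin d)} {w : Pos d M n} :
    w ∈ Rset M n a S ↔ toN w ∈ face (cpF M a) (Si M a S) := by simp [Rset]

theorem card_Rset_le {M n : ℕ} {a : Fin d → ℕ} {S : Finset (Fin d)} :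
    (Rset M n a S).card ≤ 2 ^ d := by
  refine le_trans ?_ (card_face_le (cpF M a) (Si M a S))
  apply Finset.card_le_card_of_injOn toN
  · intro w hw
    exact mem_Rset.1 hw
  · intro w _ w' _ h
    exact toN_inj h

theorem card_Rset_pos {M n : ℕ} {a : Fin d → ℕ} {S : Finset (Fin d)} (h : InBox (n * (M+1)) a S) :
    1 ≤ (Rset M n a S).card := by
  rw [Nat.one_le_iff_ne_zero, ← Nat.pos_iff_ne_zero, Finset.card_pos]
  refine ⟨ofN d M n (cpF M a), ?_⟩
  rw [mem_Rset, toN_ofN]
  · exact self_mem_face _ _
  · intro k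
    exact face_cp_le h (self_mem_face _ _) k

/-- Enumeration of `Rset`. -/
noncomputable def enum {M n : ℕ} (R : Finset (Pos d M n)) : Fin R.card → Pos d M n :=
  fun i => (R.equivFin.symm i : Pos d M n)

theorem enum_inj {M n : ℕ} (R : Finset (Pos d M n)) : Function.Injective (enum R) := by
  intro i j h
  unfold enum at h
  exact R.equivFin.symm.injective (Subtype.ext h)

theorem enum_mem {M n : ℕ} (R : Finset (Pos d M n)) (i : Fin R.card) : enum R i ∈ R :=
  (R.equivFin.symm i).2

theorem enum_surj {M n : ℕ} (R : Finset (Pos d M n)) {w : Pos d M n} (hw : w ∈ R) :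
    ∃ i, enum R i = w := ⟨R.equivFin ⟨w, hw⟩, by simp [enum]⟩

theorem image_enum {M n : ℕ} (R : Finset (Pos d M n)) (f : Pos d M n → A) :
    Finset.univ.image (fun i => f (enum R i)) = R.image f := by
  ext y
  simp only [Finset.mem_image, Finset.mem_univ, true_and]
  constructor
  · rintro ⟨i, rfl⟩
    exact ⟨_, enum_mem R i, rfl⟩
  · rintro ⟨w, hw, rfl⟩
    obtain ⟨i, hi⟩ := enum_surj R hw
    exact ⟨i, by rw [hi]⟩

theorem image_ofN {M n : ℕ} {a : Fin d → ℕ} {S : Finset (Fin d)} (h : InBox (n * (M+1)) a S)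
    (f : Pos d M n → A) :
    (face (cpF M a) (Si M a S)).image (fun w => f (ofN d M n w)) = (Rset M n a S).image f := by
  ext y
  simp only [Finset.mem_image]
  constructor
  · rintro ⟨w, hw, rfl⟩
    refine ⟨ofN d M n w, ?_, rfl⟩
    rw [mem_Rset, toN_ofN (fun k => face_cp_le h hw k)]
    exact hw
  · rintro ⟨w, hw, rfl⟩
    exact ⟨toN w, mem_Rset.1 hw, by rw [ofN_toN]⟩

open Classical in
theorem card_cst_le {M n : ℕ} (hM : 1 ≤ M) (w : Pos d M n) :
    (Finset.univ.filter (fun c : Cst d M n =>
      ∃ i, enum (Rset M n (toN c.1.1) c.1.2) i = w)).card ≤ 8 ^ d := by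
  let P : Fin d → Finset ℕ := fun k =>
    {toN w k + toN w k / M, toN w k + toN w k / M - 1, (toN w k - 1) + (toN w k - 1) / M,
      (toN w k - 1) + (toN w k - 1) / M - 1}
  have hP : ∀ k, (P k).card ≤ 4 := fun k => Finset.card_le_four
  have h1 : (Finset.univ.filter (fun c : Cst d M n =>
      ∃ i, enum (Rset M n (toN c.1.1) c.1.2) i = w)).card
      ≤ (Fintype.piFinset P ×ˢ (Finset.univ : Finset (Finset (Fin d)))).card := by
    apply Finset.card_le_card_of_injOn (fun c => (toN c.1.1, c.1.2))
    · intro c hc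
      have hc' := (Finset.mem_filter.1 hc).2
      obtain ⟨i, hi⟩ := hc'
      have hw : w ∈ Rset M n (toN c.1.1) c.1.2 := by rw [← hi]; exact enum_mem _ i
      rw [mem_Rset, mem_face] at hw
      simp only [Finset.coe_product, Set.mem_prod, Finset.mem_coe]
      refine ⟨?_, Finset.mem_univ _⟩
      rw [Fintype.mem_piFinset]
      intro k
      simp only [P, Finset.mem_insert, Finset.mem_singleton]
      rcases hw k with h | ⟨_, h⟩
      · have := cp_fiber hM (u := toN c.1.1 k) (w := toN w k) h.symm
        tauto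
      · have h2 : cp M (toN c.1.1 k) = toN w k - 1 := by
          rw [h]; rfl
        have := cp_fiber hM h2
        tauto
    · intro c _ c' _ h
      simp only [Prod.mk.injEq] at h
      apply Subtype.ext
      exact Prod.ext (toN_inj h.1) h.2
  refine h1.trans ?_
  rw [Finset.card_product, Fintype.card_piFinset, Finset.card_univ, Fintype.card_finset, Fintype.card_fin]
  calc (∏ k : Fin d, (P k).card) * 2 ^ d ≤ (∏ k : Fin d, 4) * 2 ^ d := by
        apply Nat.mul_le_mul_right
        exact Finset.prod_le_prod' (fun k _ => hP k)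
    _ = 8 ^ d := by
        rw [Finset.prod_const, Finset.card_univ, Fintype.card_fin, ← mul_pow]
        norm_num

/-- Conflicts. -/
def Cf {M n : ℕ} (w w' : Pos d M n) : Prop :=
  ∀ k, toN w k ≤ toN w' k + M ∧ toN w' k ≤ toN w k + M

theorem Cf_symm {M n : ℕ} (w w' : Pos d M n) (h : Cf w w') : Cf w' w := fun k => ⟨(h k).2, (h k).1⟩

open Classical in
theorem card_Cf_le {M n : ℕ} (w : Pos d M n) :
    (Finset.univ.filter (fun w' => Cf w w')).card ≤ (2 * M + 1) ^ d := by
  have h1 : (Finset.univ.filter (fun w' => Cf w w')).card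
      ≤ (Fintype.piFinset (fun k => Finset.Icc (toN w k - M) (toN w k + M))).card := by
    apply Finset.card_le_card_of_injOn toN
    · intro w' hw'
      have h := (Finset.mem_filter.1 hw').2
      rw [Finset.mem_coe, Fintype.mem_piFinset]
      intro k
      rw [Finset.mem_Icc]
      have := h k
      omega
    · intro w' _ w'' _ h
      exact toN_inj h
  refine h1.trans ?_
  rw [Fintype.card_piFinset]
  calc ∏ k : Fin d, (Finset.Icc (toN w k - M) (toN w k + M)).card ≤ ∏ k : Fin d, (2 * M + 1) := by
        apply Finset.prod_le_prod'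
        intro k _
        rw [Nat.card_Icc]
        omega
    _ = _ := by simp

/-- The lifted map. -/
def liftF {M n : ℕ} (t : ℕ) (F : (Fin d → ℕ) → (Fin D → A)) (ζ : Pos d M n → A) :
    (Fin d → ℕ) → (Fin D → A) :=
  fun u => upd (F (dvF M u)) t (ζ (ofN d M n (cpF M u)))

theorem image_liftF {M n : ℕ} (t : ℕ) (F : (Fin d → ℕ) → (Fin D → A)) (ζ : Pos d M n → A)
    {a : Fin d → ℕ} {S : Finset (Fin d)} (h : InBox (n * (M+1)) a S) :
    (face a S).image (liftF t F ζ)
      = ext t ((face (dvF M a) (Sc M a S)).image F) ((Rset M n a S).image ζ) := by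
  rw [← image_ofN h]
  ext y
  rw [mem_ext, Finset.mem_image]
  constructor
  · rintro ⟨u, hu, rfl⟩
    have := face_down (M := M) hu
    exact ⟨_, Finset.mem_image_of_mem F this.1, _,
      Finset.mem_image_of_mem (fun w => ζ (ofN d M n w)) this.2, rfl⟩
  · rintro ⟨x, hx, hh, hhh, rfl⟩
    obtain ⟨x', hx', rfl⟩ := Finset.mem_image.1 hx
    obtain ⟨w', hw', rfl⟩ := Finset.mem_image.1 hhh
    obtain ⟨u, hu, hu1, hu2⟩ := face_up hx' hw'
    refine ⟨u, hu, ?_⟩
    unfold liftF
    rw [hu1, hu2]

/-- The event that an extension is not good. -/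
def BadH (X : Finset (Fin D → A)) (FG : Finset (Fin D → A) → Prop) (s : ℕ) (β η : ℕ → ℝ) (t : ℕ)
    (T : Finset (Fin D → A)) {r : ℕ} (H : Fin r → A) : Prop :=
  ¬ good X FG s β η t (ext t T (Finset.univ.image H))

theorem stage_step (X : Finset (Fin D → A)) (FG : Finset (Fin D → A) → Prop) (β η : ℕ → ℝ)
    (b : Fin D → A) (n t M : ℕ) (hM : 1 ≤ M) (hn : 1 ≤ n) (ht : t < D) (θ : ℝ)
    (hθ0 : 0 ≤ θ) (hθ : θ * (4 * ((8 ^ d : ℕ) : ℝ)) ^ (2 ^ d) < 1)
    (hβ : 0 < β t) (hβ1 : β t ≤ 1) (hη : η t ≤ θ * β t ^ (2 ^ d)) (hη0 : 0 ≤ η t)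
    (hconf : (4 : ℝ) * (2 * M + 1) ^ d ≤ β t * (Fintype.card A : ℝ))
    (F : (Fin d → ℕ) → (Fin D → A)) (hF : Stage X FG (2 ^ d) β η b n (t+1) F) :
    ∃ F' : (Fin d → ℕ) → (Fin D → A), Stage X FG (2 ^ d) β η b (n * (M+1)) t F' := by
  classical
  set q : ℝ := (Fintype.card A : ℝ) with hq
  have hq0 : 0 ≤ q := by positivity
  let L : Pos d M n → Finset A := fun w =>
    nb X t ((face (loF M (toN w)) (crS M n (toN w))).image F)
  have hLcard : ∀ w, β t * q ≤ ((L w).card : ℝ) := by
    intro w
    have h := hF.gd _ _ (inBox_lo (d := d) hM hn (fun k => toN_le w k))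
    rw [good] at h
    exact h.1
  have hβq : 0 < β t * q := by
    have : (0 : ℝ) < 4 * (2 * M + 1) ^ d := by positivity
    linarith
  have hL : ∀ w, (L w).Nonempty := by
    intro w
    rw [← Finset.card_pos]
    have : (0 : ℝ) < ((L w).card : ℝ) := lt_of_lt_of_le hβq (hLcard w)
    exact_mod_cast this
  let Tc : Cst d M n → Finset (Fin D → A) := fun c =>
    (face (dvF M (toN c.1.1)) (Sc M (toN c.1.1) c.1.2)).image F
  let R : Cst d M n → Finset (Pos d M n) := fun c => Rset M n (toN c.1.1) c.1.2
  obtain ⟨ζ, hζ1, hζ2, hζ3⟩ := greedy (V := Pos d M n) (A := A) (C := Cst d M n) L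
    (fun c => (R c).card) (fun c => enum (R c)) (fun c => enum_inj (R c))
    (fun c H => BadH X FG (2 ^ d) β η t (Tc c) H)
    (2 ^ d) (8 ^ d) θ (Nat.one_le_pow _ _ (by norm_num)) hθ0 hθ
    (fun c => card_Rset_le) hL
    (by
      intro c
      have hbox := inBox_cst c
      have hg := hF.gd _ _ (inBox_down hbox)
      rw [good] at hg
      have hr1 : 1 ≤ (R c).card := card_Rset_pos hbox
      have hr2 : (R c).card ≤ 2 ^ d := card_Rset_le
      have hg2 := hg.2 (R c).card hr1 hr2
      have hsub : (Fintype.piFinset (fun i => L (enum (R c) i))).filter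
          (fun H => BadH X FG (2 ^ d) β η t (Tc c) H)
          ⊆ Finset.univ.filter (fun H : Fin (R c).card → A => (∀ i, H i ∈ nb X t (Tc c)) ∧
            ¬ good X FG (2 ^ d) β η t (ext t (Tc c) (Finset.univ.image H))) := by
        intro H hH
        rw [Finset.mem_filter] at hH ⊢
        refine ⟨Finset.mem_univ _, ?_, hH.2⟩
        intro i
        have h1 := (Fintype.mem_piFinset.1 hH.1) i
        have h2 : toN (enum (R c) i) ∈ face (cpF M (toN c.1.1)) (Si M (toN c.1.1) c.1.2) :=
          mem_Rset.1 (enum_mem (R c) i)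
        exact nb_anti (Finset.image_subset_image (face_contain hM hbox h2)) h1
      have hcard : (((Fintype.piFinset (fun i => L (enum (R c) i))).filter
          (fun H => BadH X FG (2 ^ d) β η t (Tc c) H)).card : ℝ)
          ≤ η t * ((nb X t (Tc c)).card : ℝ) ^ (R c).card := by
        refine le_trans ?_ hg2
        exact_mod_cast Finset.card_le_card hsub
      refine hcard.trans ?_
      have hnb : ((nb X t (Tc c)).card : ℝ) ≤ q := by
        rw [hq]
        exact_mod_cast Finset.card_le_univ _
      calc η t * ((nb X t (Tc c)).card : ℝ) ^ (R c).card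
          ≤ η t * q ^ (R c).card := by
            apply mul_le_mul_of_nonneg_left _ hη0
            exact pow_le_pow_left₀ (Nat.cast_nonneg _) hnb _
        _ ≤ (θ * β t ^ (2 ^ d)) * q ^ (R c).card :=
            mul_le_mul_of_nonneg_right hη (by positivity)
        _ ≤ (θ * β t ^ (R c).card) * q ^ (R c).card := by
            apply mul_le_mul_of_nonneg_right _ (by positivity)
            apply mul_le_mul_of_nonneg_left _ hθ0
            exact pow_le_pow_of_le_one hβ.le hβ1 hr2
        _ = θ * ∏ i : Fin (R c).card, (β t * q) := by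
            rw [Finset.prod_const, Finset.card_univ, Fintype.card_fin, mul_pow]
            ring
        _ ≤ θ * ∏ i : Fin (R c).card, ((L (enum (R c) i)).card : ℝ) := by
            apply mul_le_mul_of_nonneg_left _ hθ0
            apply Finset.prod_le_prod
            · intro i _; exact hβq.le
            · intro i _; exact hLcard _)
    (fun w => card_cst_le hM w)
    Cf Cf_symm
    (by
      intro w
      have h1 := card_Cf_le w
      have h2 : (4 : ℝ) * ((Finset.univ.filter (fun w' => Cf w w')).card : ℝ) ≤ ((L w).card : ℝ) := by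
        calc (4 : ℝ) * ((Finset.univ.filter (fun w' => Cf w w')).card : ℝ)
            ≤ 4 * (2 * M + 1) ^ d := by
              apply mul_le_mul_of_nonneg_left _ (by norm_num)
              exact_mod_cast h1
          _ ≤ β t * q := hconf
          _ ≤ _ := hLcard w
      exact_mod_cast h2)
  refine ⟨liftF t F ζ, ?_, ?_, ?_, ?_⟩
  · -- low
    intro u i hi
    have h1 : ¬ (i : ℕ) = t := by omega
    simp only [liftF, upd, h1, if_false]
    exact hF.low _ i (by omega)
  · -- inj
    intro u v hu hv huv
    have h1 : F (dvF M u) = F (dvF M v) := by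
      funext i
      by_cases hi : (i : ℕ) = t
      · rw [hF.low _ i (by omega), hF.low _ i (by omega)]
      · have := congrFun huv i
        simpa only [liftF, upd, hi, if_false] using this
    have h2 : dvF M u = dvF M v := hF.inj _ _ (fun k => div_lt_box (hu k)) (fun k => div_lt_box (hv k)) h1
    by_contra hne
    have hu' : ∀ k, cpF M u k ≤ n * M := fun k => cp_le M n (u k) (hu k)
    have hv' : ∀ k, cpF M v k ≤ n * M := fun k => cp_le M n (v k) (hv k)
    have h3 : ofN d M n (cpF M u) ≠ ofN d M n (cpF M v) := by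
      intro h
      apply hne
      have h4 : cpF M u = cpF M v := by
        rw [← toN_ofN hu', h, toN_ofN hv']
      funext k
      exact cp_inj (congrFun h2 k) (congrFun h4 k)
    have h5 : Cf (ofN d M n (cpF M u)) (ofN d M n (cpF M v)) := by
      intro k
      rw [toN_ofN hu', toN_ofN hv']
      exact ⟨cp_close (congrFun h2 k), cp_close (congrFun h2 k).symm⟩
    apply hζ3 _ _ h3 h5
    have := congrFun huv ⟨t, ht⟩
    simpa [liftF, upd] using this
  · -- good
    intro a S h
    rw [image_liftF t F ζ h]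
    have hc := hζ2 ⟨(fun k => ⟨a k, (h k).1⟩, S), fun k hk => (h k).2 hk⟩
    unfold BadH at hc
    rw [not_not] at hc
    rw [image_enum] at hc
    exact hc
  · -- dim
    intro a S h
    obtain ⟨Y, hY1, hY2⟩ := hF.dim _ _ (inBox_down h)
    by_cases hSi : Si M a S = ∅
    · refine ⟨Y, ?_, ?_⟩
      · refine hY1.trans ?_
        apply Finset.card_le_card
        intro k hk
        exact (mem_Sc.1 hk).1
      · intro x hx y hy i hi
        have hx' := face_down (M := M) hx
        have hy' := face_down (M := M) hy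
        have h1 : cpF M x = cpF M y := by
          have e1 := mem_face.1 hx'.2
          have e2 := mem_face.1 hy'.2
          funext k
          rcases e1 k with h1 | ⟨h1, _⟩
          · rcases e2 k with h2 | ⟨h2, _⟩
            · rw [h1, h2]
            · rw [hSi] at h2; simp at h2
          · rw [hSi] at h1; simp at h1
        simp only [liftF, upd, h1]
        split_ifs
        · rfl
        · exact hY2 _ hx'.1 _ hy'.1 i hi
    · obtain ⟨k₀, hk₀⟩ := Finset.nonempty_iff_ne_empty.2 hSi
      refine ⟨insert ⟨t, ht⟩ Y, ?_, ?_⟩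
      · refine (Finset.card_insert_le _ _).trans ?_
        refine (Nat.add_le_add_right hY1 1).trans ?_
        have h1 : (Sc M a S).card + (Si M a S).card = S.card :=
          Finset.card_filter_add_card_filter_not (fun k => a k % (M+1) = M)
        have h2 : 0 < (Si M a S).card := Finset.card_pos.2 ⟨k₀, hk₀⟩
        omega
      · intro x hx y hy i hi
        rw [Finset.mem_insert, not_or] at hi
        have hx' := face_down (M := M) hx
        have hy' := face_down (M := M) hy
        have h1 : ¬ (i : ℕ) = t := fun h => hi.1 (Fin.ext h)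
        simp only [liftF, upd, h1, if_false]
        exact hY2 _ hx'.1 _ hy'.1 i hi.2

end Pool.Agent.Helper91.SR
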